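import Mathlib

/-!
# Clue, clue profile, noise sensitivity: definitions
-/

namespace Q292.Clue

open Finset

variable {V : Type*} [Fintype V] [DecidableEq V]

/-- weight of a configuration under the product measure with `P(ω v = true) = p` -/
noncomputable def wt (p : ℝ) (ω : V → Bool) : ℝ := ∏ v, if ω v = true then p else 1 - p

/-- expectation -/
noncomputable def ex (p : ℝ) (F : (V → Bool) → ℝ) : ℝ := ∑ ω, wt p ω * F ω

/-- variance -/
noncomputable def vari (p : ℝ) (F : (V → Bool) → ℝ) : ℝ := ex p fun ω => (F ω - ex p F) ^ 2

/-- the configuration equal to `ω` on `U` and to `ω'` off `U` -/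
def mix (U : Finset V) (ω ω' : V → Bool) : V → Bool := fun v => if v ∈ U then ω v else ω' v

/-- conditional expectation given the coordinates in `U` -/
noncomputable def condEx (p : ℝ) (U : Finset V) (F : (V → Bool) → ℝ) (ω : V → Bool) : ℝ :=
  ex p fun ω' => F (mix U ω ω')

/-- the `±1` value -/
def val (b : Bool) : ℝ := if b = true then 1 else -1

/-- the clue of `U` about `f` -/
noncomputable def clue (p : ℝ) (f : (V → Bool) → Bool) (U : Finset V) : ℝ :=
  vari p (condEx p U fun ω => val (f ω)) / vari p fun ω => val (f ω)

/-- average over a random subset containing each element independently with probability `δ` -/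
noncomputable def exSub (δ : ℝ) (G : Finset V → ℝ) : ℝ :=
  ∑ U : Finset V, δ ^ #U * (1 - δ) ^ #(Uᶜ) * G U

/-- the clue profile -/
noncomputable def cp (p : ℝ) (f : (V → Bool) → Bool) (s : ℝ) : ℝ :=
  sInf {u : ℝ | ∃ U : Finset V, (#U : ℝ) / Fintype.card V ≤ u ∧ s ≤ clue p f U}

/-- `E[f(ω) f(ω^ε)] - E[f]²`: the set `R` of resampled coordinates contains each coordinate
independently with probability `ε`, and `ω^ε` equals `ω` off `R` and an independent `ω'` on `R`. -/
noncomputable def noiseCov (p ε : ℝ) (f : (V → Bool) → Bool) : ℝ :=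
  exSub ε (fun R => ex p fun ω => ex p fun ω' => val (f ω) * val (f (mix Rᶜ ω ω'))) -
    (ex p fun ω => val (f ω)) ^ 2

/-- the probability that `v` is pivotal -/
noncomputable def influence (p : ℝ) (f : (V → Bool) → Bool) (v : V) : ℝ :=
  ex p fun ω => if f (Function.update ω v true) ≠ f (Function.update ω v false) then 1 else 0

end Q292.Clue
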