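import Mathlib
import Pool.Agent.Q292.Clue.Defs

/-!
# Expectations over finite product spaces
-/

namespace Q292.Clue

open Finset

variable {V : Type*} [Fintype V] [DecidableEq V]

/-- expectation over a product space, site dependent weights -/
noncomputable def EE {S : Type*} [Fintype S] (q : V → S → ℝ) (Φ : (V → S) → ℝ) : ℝ :=
  ∑ z : V → S, (∏ v, q v (z v)) * Φ z

section
variable {S S' : Type*} [Fintype S] [Fintype S']

theorem EE_prod (q : V → S → ℝ) (φ : V → S → ℝ) :
    EE q (fun z => ∏ v, φ v (z v)) = ∏ v, ∑ s, q v s * φ v s := by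
  unfold EE
  rw [Fintype.prod_sum]
  refine Finset.sum_congr rfl fun z _ => ?_
  rw [← Finset.prod_mul_distrib]

theorem EE_add (q : V → S → ℝ) (Φ Ψ : (V → S) → ℝ) :
    EE q (fun z => Φ z + Ψ z) = EE q Φ + EE q Ψ := by
  unfold EE
  rw [← Finset.sum_add_distrib]
  exact Finset.sum_congr rfl fun z _ => by ring

theorem EE_sub (q : V → S → ℝ) (Φ Ψ : (V → S) → ℝ) :
    EE q (fun z => Φ z - Ψ z) = EE q Φ - EE q Ψ := by
  unfold EE
  rw [← Finset.sum_sub_distrib]
  exact Finset.sum_congr rfl fun z _ => by ring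

theorem EE_mul (q : V → S → ℝ) (c : ℝ) (Φ : (V → S) → ℝ) :
    EE q (fun z => c * Φ z) = c * EE q Φ := by
  unfold EE
  rw [Finset.mul_sum]
  exact Finset.sum_congr rfl fun z _ => by ring

theorem EE_const (q : V → S → ℝ) (hq : ∀ v, ∑ s, q v s = 1) (c : ℝ) :
    EE q (fun _ => c) = c := by
  have h := EE_prod q (fun _ _ => 1)
  simp only [Finset.prod_const_one, mul_one, hq] at h
  have h2 := EE_mul q c (fun _ => 1)
  rw [h] at h2
  simpa using h2

theorem EE_mono (q : V → S → ℝ) (hq : ∀ v s, 0 ≤ q v s) {Φ Ψ : (V → S) → ℝ}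
    (h : ∀ z, Φ z ≤ Ψ z) : EE q Φ ≤ EE q Ψ :=
  Finset.sum_le_sum fun z _ => mul_le_mul_of_nonneg_left (h z)
    (Finset.prod_nonneg fun v _ => hq v _)

theorem EE_prodType (q : V → S → ℝ) (q' : V → S' → ℝ) (Φ : (V → S × S') → ℝ) :
    EE (fun v s => q v s.1 * q' v s.2) Φ =
      EE q (fun x => EE q' fun y => Φ fun v => (x v, y v)) := by
  unfold EE
  rw [← Fintype.sum_equiv (Equiv.arrowProdEquivProdArrow V (fun _ => S) (fun _ => S')).symm
    (fun z => ((∏ v, q v (z.1 v)) * (∏ v, q' v (z.2 v))) * Φ fun v => (z.1 v, z.2 v)) _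
    (fun z => by
      rw [← Finset.prod_mul_distrib]
      rfl)]
  rw [Fintype.sum_prod_type]
  refine Finset.sum_congr rfl fun x _ => ?_
  rw [Finset.mul_sum]
  exact Finset.sum_congr rfl fun y _ => by ring

/-- push-forward -/
theorem EE_push [DecidableEq S'] (q : V → S → ℝ) (g : V → S → S') (Φ : (V → S') → ℝ) :
    EE q (fun z => Φ fun v => g v (z v)) =
      EE (fun v s' => ∑ s, if g v s = s' then q v s else 0) Φ := by
  unfold EE
  have h1 : ∀ y : V → S', (∏ v, ∑ s, if g v s = y v then q v s else 0) =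
      ∑ z : V → S, if (fun v => g v (z v)) = y then ∏ v, q v (z v) else 0 := by
    intro y
    rw [Fintype.prod_sum]
    refine Finset.sum_congr rfl fun z _ => ?_
    by_cases h : (fun v => g v (z v)) = y
    · rw [if_pos h]
      refine Finset.prod_congr rfl fun v _ => ?_
      rw [if_pos (congrFun h v)]
    · rw [if_neg h]
      obtain ⟨v, hv⟩ : ∃ v, g v (z v) ≠ y v := by
        by_contra hcon
        push Not at hcon
        exact h (funext hcon)
      exact Finset.prod_eq_zero (Finset.mem_univ v) (if_neg hv)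
  simp only [h1, Finset.sum_mul]
  rw [Finset.sum_comm]
  refine Finset.sum_congr rfl fun z _ => ?_
  rw [Finset.sum_eq_single (fun v => g v (z v))]
  · rw [if_pos rfl]
  · intro y _ hy
    rw [if_neg (Ne.symm hy), zero_mul]
  · intro h
    exact absurd (Finset.mem_univ _) h

theorem EE_sum {A B : Type*} [Fintype A] [Fintype B] [DecidableEq A] [DecidableEq B]
    (q : A ⊕ B → S → ℝ) (Φ : (A → S) → ℝ) (Ψ : (B → S) → ℝ) :
    EE q (fun z => Φ (fun a => z (Sum.inl a)) * Ψ (fun b => z (Sum.inr b))) =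
      EE (fun a => q (Sum.inl a)) Φ * EE (fun b => q (Sum.inr b)) Ψ := by
  unfold EE
  rw [← Fintype.sum_equiv (Equiv.sumArrowEquivProdArrow A B S).symm
    (fun z => ((∏ a, q (Sum.inl a) (z.1 a)) * Φ z.1) * ((∏ b, q (Sum.inr b) (z.2 b)) * Ψ z.2)) _
    (fun z => by
      rw [Fintype.prod_sum_type]
      change ((∏ a, q (Sum.inl a) (z.1 a)) * Φ z.1) * ((∏ b, q (Sum.inr b) (z.2 b)) * Ψ z.2) =
        ((∏ a, q (Sum.inl a) (z.1 a)) * ∏ b, q (Sum.inr b) (z.2 b)) * (Φ z.1 * Ψ z.2)
      ring)]
  rw [Fintype.sum_prod_type, Finset.sum_mul_sum]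

/-- blocks -/
theorem EE_block {ι κ : Type*} [Fintype ι] [Fintype κ] [DecidableEq ι] [DecidableEq κ]
    (q : κ → S → ℝ) (Φ : ι → (κ → S) → ℝ) :
    EE (fun v : ι × κ => q v.2) (fun z => ∏ i, Φ i fun k => z (i, k)) = ∏ i, EE q (Φ i) := by
  have h := EE_prod (V := ι) (S := κ → S) (fun _ y => ∏ k, q k (y k)) Φ
  have h2 : ∀ i, EE q (Φ i) = ∑ y : κ → S, (∏ k, q k (y k)) * Φ i y := fun i => rfl
  simp only [h2]
  rw [← h]
  unfold EE
  rw [← Fintype.sum_equiv (Equiv.curry ι κ S).symm
    (fun z => (∏ i, ∏ k, q k (z i k)) * ∏ i, Φ i (z i)) _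
    (fun z => by
      rw [Fintype.prod_prod_type]
      rfl)]

end

/-- the coin -/
noncomputable def coin (p : ℝ) (b : Bool) : ℝ := if b = true then p else 1 - p

theorem coin_sum (p : ℝ) : ∑ b, coin p b = 1 := by
  simp [coin]

theorem ex_eq (p : ℝ) (F : (V → Bool) → ℝ) : ex p F = EE (fun _ => coin p) F := rfl

/-- random subsets as configurations -/
theorem exSub_eq (δ : ℝ) (G : Finset V → ℝ) :
    exSub δ G = EE (fun _ => coin δ) fun u : V → Bool => G (univ.filter fun v => u v = true) := by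
  unfold exSub EE
  have hinj : Function.Bijective fun u : V → Bool => univ.filter fun v => u v = true := by
    constructor
    · intro u u' h
      funext v
      have h1 := Finset.ext_iff.1 h v
      simp only [mem_filter, mem_univ, true_and] at h1
      exact Bool.eq_iff_iff.2 h1
    · intro U
      refine ⟨fun v => decide (v ∈ U), ?_⟩
      ext v
      simp
  rw [← Function.Bijective.sum_comp hinj]
  refine Finset.sum_congr rfl fun u _ => ?_
  congr 1
  unfold coin
  rw [Finset.prod_ite, Finset.prod_const, Finset.prod_const]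
  congr 2
  congr 1
  ext v
  simp

/-- the joint law of `(ω, ω^ε)` at one site, `δ = 1 - ε` -/
noncomputable def pr (p δ : ℝ) (s : Bool × Bool) : ℝ :=
  coin p s.1 * ((if s.1 = s.2 then δ else 0) + (1 - δ) * coin p s.2)

/-- the noise form -/
noncomputable def TT (p δ : ℝ) (F G : (V → Bool) → ℝ) : ℝ :=
  EE (fun _ => pr p δ) fun z : V → Bool × Bool => F (fun v => (z v).1) * G (fun v => (z v).2)

theorem noise_eq (p ε : ℝ) (F G : (V → Bool) → ℝ) :
    exSub ε (fun R => ex p fun ω => ex p fun ω' => F ω * G (mix Rᶜ ω ω')) = TT p (1 - ε) F G := by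
  rw [exSub_eq]
  simp only [ex_eq]
  have h1 := EE_prodType (V := V) (fun _ => coin ε) (fun _ (s : Bool × Bool) => coin p s.1 * coin p s.2)
    (fun z => F (fun v => (z v).2.1) * G (fun v => if (z v).1 = true then (z v).2.2 else (z v).2.1))
  simp only [EE_prodType] at h1
  have h2 : ∀ (u ω ω' : V → Bool), mix (univ.filter fun v => u v = true)ᶜ ω ω' =
      fun v => if u v = true then ω' v else ω v := by
    intro u ω ω'
    funext v
    unfold mix
    by_cases h : u v = true
    · rw [if_pos h, if_neg]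
      simp [h]
    · rw [if_neg h, if_pos]
      simp [h]
  simp only [h2]
  rw [← h1]
  unfold TT
  rw [EE_push (S' := Bool × Bool) (V := V) (fun _ (s : Bool × Bool × Bool) => coin ε s.1 * (coin p s.2.1 * coin p s.2.2))
    (fun _ s => (s.2.1, if s.1 = true then s.2.2 else s.2.1))
    (fun z => F (fun v => (z v).1) * G (fun v => (z v).2))]
  congr 1
  funext v s
  rcases s with ⟨a, b⟩
  cases a <;> cases b <;> simp [Fintype.sum_prod_type, coin, pr] <;> ring

theorem cond_eq (p δ : ℝ) (F G : (V → Bool) → ℝ) :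
    exSub δ (fun U => ex p fun ω => condEx p U F ω * condEx p U G ω) = TT p δ F G := by
  rw [exSub_eq]
  simp only [condEx, ex_eq]
  have h0 : ∀ (U : Finset V) (ω : V → Bool),
      (EE (fun _ => coin p) fun ω' => F (mix U ω ω')) * (EE (fun _ => coin p) fun ω' => G (mix U ω ω'))
      = EE (fun _ => coin p) fun ω' => EE (fun _ => coin p) fun ω'' =>
        F (mix U ω ω') * G (mix U ω ω'') := by
    intro U ω
    simp only [EE_mul]
    have h3 : ∀ c : ℝ, (EE (V := V) (fun _ => coin p) fun ω' => F (mix U ω ω') * c) =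
        (EE (fun _ => coin p) fun ω' => F (mix U ω ω')) * c := by
      intro c
      have := EE_mul (V := V) (fun _ => coin p) c fun ω' => F (mix U ω ω')
      rw [mul_comm, ← this]
      congr 1
      funext x
      ring
    rw [h3]
  simp only [h0]
  have h1 := EE_prodType (V := V) (fun _ => coin δ)
    (fun _ (s : Bool × Bool × Bool) => coin p s.1 * (coin p s.2.1 * coin p s.2.2))
    (fun z => F (fun v => if (z v).1 = true then (z v).2.1 else (z v).2.2.1) *
      G (fun v => if (z v).1 = true then (z v).2.1 else (z v).2.2.2))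
  have h2 : ∀ Ψ : (V → Bool × Bool × Bool) → ℝ,
      EE (fun _ (s : Bool × Bool × Bool) => coin p s.1 * (coin p s.2.1 * coin p s.2.2)) Ψ =
      EE (fun _ => coin p) fun x => EE (fun _ => coin p) fun y => EE (fun _ => coin p) fun w =>
        Ψ fun v => (x v, y v, w v) := by
    intro Ψ
    rw [EE_prodType (V := V) (fun _ => coin p) (fun _ (s : Bool × Bool) => coin p s.1 * coin p s.2)]
    simp only [EE_prodType]
  simp only [h2] at h1
  have h4 : ∀ (u ω ω' : V → Bool), mix (univ.filter fun v => u v = true) ω ω' =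
      fun v => if u v = true then ω v else ω' v := by
    intro u ω ω'
    funext v
    unfold mix
    by_cases h : u v = true
    · rw [if_pos h, if_pos]
      simp [h]
    · rw [if_neg h, if_neg]
      simp [h]
  simp only [h4]
  rw [← h1]
  unfold TT
  rw [EE_push (S' := Bool × Bool) (V := V)
    (fun _ (s : Bool × Bool × Bool × Bool) => coin δ s.1 * (coin p s.2.1 * (coin p s.2.2.1 * coin p s.2.2.2)))
    (fun _ s => (if s.1 = true then s.2.1 else s.2.2.1, if s.1 = true then s.2.1 else s.2.2.2))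
    (fun z => F (fun v => (z v).1) * G (fun v => (z v).2))]
  congr 1
  funext v s
  rcases s with ⟨a, b⟩
  cases a <;> cases b <;> simp [Fintype.sum_prod_type, coin, pr] <;> ring

end Q292.Clue
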