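import Mathlib
import Pool.Agent.Q292.Clue.Prod

/-!
# Clue and noise covariance through the noise form
-/

namespace Q292.Clue

open Finset

variable {V : Type*} [Fintype V] [DecidableEq V]

theorem ex_add (p : ℝ) (F G : (V → Bool) → ℝ) : ex p (fun ω => F ω + G ω) = ex p F + ex p G :=
  EE_add (fun _ => coin p) F G

theorem ex_sub (p : ℝ) (F G : (V → Bool) → ℝ) : ex p (fun ω => F ω - G ω) = ex p F - ex p G :=
  EE_sub (fun _ => coin p) F G

theorem ex_mul (p : ℝ) (c : ℝ) (F : (V → Bool) → ℝ) : ex p (fun ω => c * F ω) = c * ex p F :=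
  EE_mul (fun _ => coin p) c F

theorem ex_const (p : ℝ) (c : ℝ) : ex p (fun _ : V → Bool => c) = c :=
  EE_const _ (fun _ => coin_sum p) c

theorem coin_nonneg {p : ℝ} (h0 : 0 ≤ p) (h1 : p ≤ 1) (b : Bool) : 0 ≤ coin p b := by
  unfold coin
  split_ifs <;> linarith

theorem ex_mono {p : ℝ} (h0 : 0 ≤ p) (h1 : p ≤ 1) {F G : (V → Bool) → ℝ}
    (h : ∀ ω, F ω ≤ G ω) : ex p F ≤ ex p G :=
  EE_mono _ (fun _ b => coin_nonneg h0 h1 b) h

theorem ex_nonneg {p : ℝ} (h0 : 0 ≤ p) (h1 : p ≤ 1) {F : (V → Bool) → ℝ}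
    (h : ∀ ω, 0 ≤ F ω) : 0 ≤ ex p F := by
  have := ex_mono h0 h1 (F := fun _ => 0) h
  rwa [ex_const] at this

theorem exSub_const (δ c : ℝ) : exSub δ (fun _ : Finset V => c) = c := by
  rw [exSub_eq]
  exact EE_const _ (fun _ => coin_sum δ) c

theorem exSub_mono {δ : ℝ} (h0 : 0 ≤ δ) (h1 : δ ≤ 1) {F G : Finset V → ℝ}
    (h : ∀ U, F U ≤ G U) : exSub δ F ≤ exSub δ G := by
  rw [exSub_eq, exSub_eq]
  exact EE_mono _ (fun _ b => coin_nonneg h0 h1 b) fun u => h _

theorem exSub_sub (δ : ℝ) (F G : Finset V → ℝ) :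
    exSub δ (fun U => F U - G U) = exSub δ F - exSub δ G := by
  rw [exSub_eq, exSub_eq, exSub_eq]
  exact EE_sub _ _ _

theorem exSub_mul (δ c : ℝ) (F : Finset V → ℝ) :
    exSub δ (fun U => c * F U) = c * exSub δ F := by
  rw [exSub_eq, exSub_eq]
  exact EE_mul _ _ _

theorem vari_eq (p : ℝ) (F : (V → Bool) → ℝ) :
    vari p F = ex p (fun ω => F ω * F ω) - ex p F ^ 2 := by
  have h : (fun ω => (F ω - ex p F) ^ 2) =
      fun ω => F ω * F ω - (2 * ex p F * F ω - ex p F ^ 2) := by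
    funext ω
    ring
  rw [vari, h, ex_sub, ex_sub, ex_mul, ex_const]
  ring

theorem vari_nonneg {p : ℝ} (h0 : 0 ≤ p) (h1 : p ≤ 1) (F : (V → Bool) → ℝ) : 0 ≤ vari p F :=
  ex_nonneg h0 h1 fun _ => sq_nonneg _

theorem ex_condEx (p : ℝ) (U : Finset V) (F : (V → Bool) → ℝ) :
    ex p (condEx p U F) = ex p F := by
  have h1 := EE_prodType (V := V) (fun _ => coin p) (fun _ => coin p)
    (fun z => F (fun v => if v ∈ U then (z v).1 else (z v).2))
  have h2 : ex p (condEx p U F) = EE (fun _ => coin p) fun x => EE (fun _ => coin p) fun y =>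
    F fun v => if v ∈ U then x v else y v := rfl
  rw [h2, ← h1, EE_push (S' := Bool) (V := V) (fun _ (s : Bool × Bool) => coin p s.1 * coin p s.2)
    (fun v s => if v ∈ U then s.1 else s.2) F, ex_eq]
  congr 1
  funext v b
  by_cases hv : v ∈ U
  · cases b <;> simp [Fintype.sum_prod_type, coin, hv] <;> ring
  · cases b <;> simp [Fintype.sum_prod_type, coin, hv] <;> ring

theorem vari_condEx (p : ℝ) (U : Finset V) (F : (V → Bool) → ℝ) :
    vari p (condEx p U F) = ex p (fun ω => condEx p U F ω * condEx p U F ω) - ex p F ^ 2 := by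
  rw [vari_eq, ex_condEx]

/-- the averaged variance explained -/
noncomputable def DD (p δ : ℝ) (F : (V → Bool) → ℝ) : ℝ := TT p δ F F - ex p F ^ 2

theorem exSub_vari (p δ : ℝ) (F : (V → Bool) → ℝ) :
    exSub δ (fun U => vari p (condEx p U F)) = DD p δ F := by
  simp only [vari_condEx]
  rw [exSub_sub, exSub_const, cond_eq]
  rfl

theorem exSub_clue (p δ : ℝ) (f : (V → Bool) → Bool) :
    exSub δ (clue p f) = DD p δ (fun ω => val (f ω)) / vari p (fun ω => val (f ω)) := by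
  have h : (fun U => clue p f U) = fun U => (vari p fun ω => val (f ω))⁻¹ *
      vari p (condEx p U fun ω => val (f ω)) := by
    funext U
    unfold clue
    rw [div_eq_inv_mul]
  change exSub δ (fun U => clue p f U) = _
  rw [h, exSub_mul, exSub_vari, div_eq_inv_mul]

theorem noiseCov_eq (p ε : ℝ) (f : (V → Bool) → Bool) :
    noiseCov p ε f = DD p (1 - ε) (fun ω => val (f ω)) := by
  unfold noiseCov DD
  rw [noise_eq p ε (fun ω => val (f ω)) (fun ω => val (f ω))]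

theorem DD_nonneg {p δ : ℝ} (h0 : 0 ≤ p) (h1 : p ≤ 1) (hδ0 : 0 ≤ δ) (hδ1 : δ ≤ 1)
    (F : (V → Bool) → ℝ) : 0 ≤ DD p δ F := by
  rw [← exSub_vari]
  have := exSub_mono hδ0 hδ1 (F := fun _ => 0) (G := fun U => vari p (condEx p U F))
    fun U => vari_nonneg h0 h1 _
  rwa [exSub_const] at this

theorem pr_sum (p δ : ℝ) : ∑ s, pr p δ s = 1 := by
  simp [Fintype.sum_prod_type, coin, pr]
  ring

theorem pr_nonneg {p δ : ℝ} (h0 : 0 ≤ p) (h1 : p ≤ 1) (hδ0 : 0 ≤ δ) (hδ1 : δ ≤ 1)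
    (s : Bool × Bool) : 0 ≤ pr p δ s := by
  unfold pr
  refine mul_nonneg (coin_nonneg h0 h1 _) (add_nonneg ?_ (mul_nonneg (by linarith)
    (coin_nonneg h0 h1 _)))
  split_ifs <;> linarith

theorem TT_one_right (p δ : ℝ) (F : (V → Bool) → ℝ) : TT p δ F (fun _ => 1) = ex p F := by
  unfold TT
  simp only [mul_one]
  rw [EE_push (S' := Bool) (V := V) (fun _ => pr p δ) (fun _ s => s.1) F, ex_eq]
  congr 1
  funext v b
  cases b <;> simp [Fintype.sum_prod_type, coin, pr] <;> ring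

theorem TT_one_left (p δ : ℝ) (F : (V → Bool) → ℝ) : TT p δ (fun _ => 1) F = ex p F := by
  unfold TT
  simp only [one_mul]
  rw [EE_push (S' := Bool) (V := V) (fun _ => pr p δ) (fun _ s => s.2) F, ex_eq]
  congr 1
  funext v b
  cases b <;> simp [Fintype.sum_prod_type, coin, pr] <;> ring

theorem TT_one_one (p δ : ℝ) : TT p δ (fun _ : V → Bool => 1) (fun _ => 1) = 1 := by
  rw [TT_one_left, ex_const]

theorem TT_affine (p δ a b : ℝ) (F : (V → Bool) → ℝ) :
    TT p δ (fun ω => a + b * F ω) (fun ω => a + b * F ω) =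
      a ^ 2 + 2 * a * b * ex p F + b ^ 2 * TT p δ F F := by
  have h : TT p δ (fun ω => a + b * F ω) (fun ω => a + b * F ω) =
      a ^ 2 * TT p δ (fun _ : V → Bool => 1) (fun _ => 1) + a * b * TT p δ F (fun _ => 1) +
      a * b * TT p δ (fun _ => 1) F + b ^ 2 * TT p δ F F := by
    unfold TT EE
    simp only [Finset.mul_sum, ← Finset.sum_add_distrib]
    exact Finset.sum_congr rfl fun z _ => by ring
  rw [h, TT_one_one, TT_one_right, TT_one_left]
  ring

theorem DD_affine (p δ a b : ℝ) (F : (V → Bool) → ℝ) :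
    DD p δ (fun ω => a + b * F ω) = b ^ 2 * DD p δ F := by
  unfold DD
  rw [TT_affine, ex_add, ex_mul, ex_const]
  ring

theorem vari_affine (p a b : ℝ) (F : (V → Bool) → ℝ) :
    vari p (fun ω => a + b * F ω) = b ^ 2 * vari p F := by
  have h : (fun ω => (a + b * F ω - (a + b * ex p F)) ^ 2) =
      fun ω => b ^ 2 * (F ω - ex p F) ^ 2 := by
    funext ω
    ring
  unfold vari
  rw [ex_add, ex_mul, ex_const, h, ex_mul]

theorem condEx_affine (p : ℝ) (U : Finset V) (a b : ℝ) (F : (V → Bool) → ℝ) :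
    condEx p U (fun ω => a + b * F ω) = fun ω => a + b * condEx p U F ω := by
  funext ω
  unfold condEx
  rw [ex_add, ex_mul, ex_const]

/-- upper bound for `{0,1}`-valued functions -/
theorem TT_le {p δ : ℝ} (h0 : 0 ≤ p) (h1 : p ≤ 1) (hδ0 : 0 ≤ δ) (hδ1 : δ ≤ 1)
    {H : (V → Bool) → ℝ} (hH0 : ∀ ω, 0 ≤ H ω) (hH1 : ∀ ω, H ω ≤ 1) : TT p δ H H ≤ ex p H := by
  rw [← TT_one_right p δ H]
  exact EE_mono _ (fun _ s => pr_nonneg h0 h1 hδ0 hδ1 s) fun z =>
    mul_le_mul_of_nonneg_left (hH1 _) (hH0 _)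

end Q292.Clue
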