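import Mathlib
import Pool.Agent.Q292.Clue.Vari

/-!
# Tribes or (all of several majorities)
-/

namespace Q292.Clue

open Finset

/-- vertex set: tribes `Fin N × Fin K` and majorities `Fin L × Fin (2m+1)` -/
abbrev VV (N K L m : ℕ) := (Fin N × Fin K) ⊕ (Fin L × Fin (2 * m + 1))

/-- some tribe is all true, or all majorities are true -/
def ff (N K L m : ℕ) (ω : VV N K L m → Bool) : Bool :=
  decide ((∃ i, ∀ k, ω (Sum.inl (i, k)) = true) ∨
    ∀ l, m < #{j | ω (Sum.inr (l, j)) = true})

/-- indicator of truth -/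
def tr (b : Bool) : ℝ := if b = true then 1 else 0

/-- no tribe is all true -/
noncomputable def GG (N K : ℕ) (x : Fin N × Fin K → Bool) : ℝ := ∏ i, (1 - ∏ k, tr (x (i, k)))

/-- majority -/
noncomputable def MM (m : ℕ) (y : Fin (2 * m + 1) → Bool) : ℝ :=
  if m < #{j | y j = true} then 1 else 0

/-- not all majorities are true -/
noncomputable def HH (L m : ℕ) (y : Fin L × Fin (2 * m + 1) → Bool) : ℝ :=
  1 - ∏ l, MM m fun j => y (l, j)

theorem prod_tr {κ : Type*} [Fintype κ] (x : κ → Bool) :
    ∏ k, tr (x k) = if ∀ k, x k = true then 1 else 0 := by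
  split_ifs with h
  · exact Finset.prod_eq_one fun k _ => by simp [tr, h k]
  · push Not at h
    obtain ⟨k, hk⟩ := h
    exact Finset.prod_eq_zero (Finset.mem_univ k) (by simp [tr, hk])

theorem GG_eq (N K : ℕ) (x : Fin N × Fin K → Bool) :
    GG N K x = if ∃ i, ∀ k, x (i, k) = true then 0 else 1 := by
  unfold GG
  split_ifs with h
  · obtain ⟨i, hi⟩ := h
    refine Finset.prod_eq_zero (Finset.mem_univ i) ?_
    rw [prod_tr fun k => x (i, k), if_pos hi, sub_self]
  · push Not at h
    refine Finset.prod_eq_one fun i _ => ?_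
    obtain ⟨k, hk⟩ := h i
    rw [prod_tr fun k => x (i, k), if_neg, sub_zero]
    intro hcon
    exact hk (hcon k)

theorem prod_MM (L m : ℕ) (y : Fin L × Fin (2 * m + 1) → Bool) :
    ∏ l, MM m (fun j => y (l, j)) = if ∀ l, m < #{j | y (l, j) = true} then 1 else 0 := by
  split_ifs with h
  · exact Finset.prod_eq_one fun l _ => by
      unfold MM
      rw [if_pos (h l)]
  · push Not at h
    obtain ⟨l, hl⟩ := h
    refine Finset.prod_eq_zero (Finset.mem_univ l) ?_
    unfold MM
    rw [if_neg (not_lt.2 hl)]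

theorem HH_eq (L m : ℕ) (y : Fin L × Fin (2 * m + 1) → Bool) :
    HH L m y = if ∀ l, m < #{j | y (l, j) = true} then 0 else 1 := by
  unfold HH
  rw [prod_MM]
  split_ifs <;> norm_num

/-- the complement indicator -/
noncomputable def FF (N K L m : ℕ) (ω : VV N K L m → Bool) : ℝ :=
  GG N K (fun a => ω (Sum.inl a)) * HH L m (fun b => ω (Sum.inr b))

theorem FF_eq (N K L m : ℕ) (ω : VV N K L m → Bool) :
    FF N K L m ω = if ff N K L m ω = true then 0 else 1 := by
  unfold FF ff
  rw [GG_eq, HH_eq]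
  by_cases h1 : ∃ i, ∀ k, ω (Sum.inl (i, k)) = true
  · simp [h1]
  · by_cases h2 : ∀ l, m < #{j | ω (Sum.inr (l, j)) = true}
    · simp [h2]
    · rw [if_neg h1, if_neg h2, if_neg]
      · norm_num
      · simp only [decide_eq_true_eq]
        tauto

theorem val_ff (N K L m : ℕ) (ω : VV N K L m → Bool) :
    val (ff N K L m ω) = 1 + (-2) * FF N K L m ω := by
  rw [FF_eq]
  unfold val
  split_ifs <;> norm_num

theorem GG_mem (N K : ℕ) (x : Fin N × Fin K → Bool) : 0 ≤ GG N K x ∧ GG N K x ≤ 1 := by
  rw [GG_eq]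
  split_ifs <;> norm_num

theorem HH_mem (L m : ℕ) (y : Fin L × Fin (2 * m + 1) → Bool) : 0 ≤ HH L m y ∧ HH L m y ≤ 1 := by
  rw [HH_eq]
  split_ifs <;> norm_num

/-! ### Expectations -/

theorem ex_tr : ∑ b, coin (1 / 2) b * tr b = 1 / 2 := by
  simp [coin, tr]

theorem ex_GG (N K : ℕ) : ex (1 / 2) (GG N K) = (1 - (1 / 2 : ℝ) ^ K) ^ N := by
  have h := EE_block (ι := Fin N) (κ := Fin K) (S := Bool) (fun _ => coin (1 / 2))
    (fun _ y => 1 - ∏ k, tr (y k))
  have h1 : ex (1 / 2) (GG N K) = EE (fun _ : Fin N × Fin K => coin (1 / 2))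
      fun z => ∏ i, (1 - ∏ k, tr (z (i, k))) := rfl
  rw [h1, h]
  have h2 : EE (fun _ : Fin K => coin (1 / 2)) (fun y => 1 - ∏ k, tr (y k)) =
      1 - (1 / 2 : ℝ) ^ K := by
    rw [EE_sub, EE_const _ fun _ => coin_sum _]
    have h3 := EE_prod (V := Fin K) (fun _ => coin (1 / 2)) (fun _ => tr)
    rw [h3]
    simp only [ex_tr, prod_const, card_univ, Fintype.card_fin]
  rw [h2, prod_const, card_univ, Fintype.card_fin]

theorem TT_prod (p δ : ℝ) {A B : Type*} [Fintype A] [Fintype B] [DecidableEq A] [DecidableEq B]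
    (G G' : (A → Bool) → ℝ) (H H' : (B → Bool) → ℝ) :
    TT p δ (fun ω : A ⊕ B → Bool => G (fun a => ω (Sum.inl a)) * H (fun b => ω (Sum.inr b)))
      (fun ω => G' (fun a => ω (Sum.inl a)) * H' (fun b => ω (Sum.inr b))) =
      TT p δ G G' * TT p δ H H' := by
  unfold TT
  have h := EE_sum (A := A) (B := B) (fun _ => pr p δ)
    (fun z => G (fun v => (z v).1) * G' (fun v => (z v).2))
    (fun z => H (fun v => (z v).1) * H' (fun v => (z v).2))
  rw [← h]
  congr 1
  funext z
  ring

theorem ex_prod (p : ℝ) {A B : Type*} [Fintype A] [Fintype B] [DecidableEq A] [DecidableEq B]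
    (G : (A → Bool) → ℝ) (H : (B → Bool) → ℝ) :
    ex p (fun ω : A ⊕ B → Bool => G (fun a => ω (Sum.inl a)) * H (fun b => ω (Sum.inr b))) =
      ex p G * ex p H :=
  EE_sum (A := A) (B := B) (fun _ => coin p) G H

theorem TT_GG (N K : ℕ) (δ : ℝ) : TT (1 / 2) δ (GG N K) (GG N K) =
    (1 - 2 * (1 / 2 : ℝ) ^ K + ((1 + δ) / 4) ^ K) ^ N := by
  have h := EE_block (ι := Fin N) (κ := Fin K) (S := Bool × Bool) (fun _ => pr (1 / 2) δ)
    (fun _ y => (1 - ∏ k, tr (y k).1) * (1 - ∏ k, tr (y k).2))
  have h1 : TT (1 / 2) δ (GG N K) (GG N K) = EE (fun _ : Fin N × Fin K => pr (1 / 2) δ)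
      fun z => ∏ i, ((1 - ∏ k, tr (z (i, k)).1) * (1 - ∏ k, tr (z (i, k)).2)) := by
    unfold TT GG
    congr 1
    funext z
    rw [Finset.prod_mul_distrib]
  rw [h1, h]
  have h2 : EE (fun _ : Fin K => pr (1 / 2) δ)
      (fun y => (1 - ∏ k, tr (y k).1) * (1 - ∏ k, tr (y k).2)) =
      TT (1 / 2) δ (fun ω : Fin K → Bool => 1 + (-1) * ∏ k, tr (ω k))
        (fun ω => 1 + (-1) * ∏ k, tr (ω k)) := by
    unfold TT
    congr 1
    funext z
    ring
  have h3 : ex (1 / 2) (fun ω : Fin K → Bool => ∏ k, tr (ω k)) = (1 / 2 : ℝ) ^ K := by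
    rw [ex_eq]
    have h3 := EE_prod (V := Fin K) (fun _ => coin (1 / 2)) (fun _ => tr)
    rw [h3]
    simp only [ex_tr, prod_const, card_univ, Fintype.card_fin]
  have h4 : TT (1 / 2) δ (fun ω : Fin K → Bool => ∏ k, tr (ω k)) (fun ω => ∏ k, tr (ω k)) =
      ((1 + δ) / 4) ^ K := by
    unfold TT
    have h5 := EE_prod (V := Fin K) (fun _ => pr (1 / 2) δ) (fun _ s => tr s.1 * tr s.2)
    have h6 : (fun z : Fin K → Bool × Bool => (∏ k, tr (z k).1) * ∏ k, tr (z k).2) =
        fun z => ∏ k, (tr (z k).1 * tr (z k).2) := by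
      funext z
      rw [Finset.prod_mul_distrib]
    rw [h6, h5, prod_const, card_univ, Fintype.card_fin]
    congr 1
    simp [Fintype.sum_prod_type, coin, pr, tr]
    ring
  rw [h2, TT_affine, h3, h4, prod_const, card_univ, Fintype.card_fin]
  congr 1
  ring

/-! ### Majority -/

theorem ex_half {V : Type*} [Fintype V] [DecidableEq V] (F : (V → Bool) → ℝ) :
    ex (1 / 2) F = (1 / 2 : ℝ) ^ Fintype.card V * ∑ ω, F ω := by
  unfold ex wt
  rw [Finset.mul_sum]
  refine Finset.sum_congr rfl fun ω _ => ?_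
  congr 1
  have : ∀ v, (if ω v = true then (1 / 2 : ℝ) else 1 - 1 / 2) = 1 / 2 := by
    intro v
    split_ifs <;> norm_num
  simp only [this, prod_const, card_univ]

theorem ex_MM (m : ℕ) : ex (1 / 2) (MM m) = 1 / 2 := by
  rw [ex_half, Fintype.card_fin]
  have h1 : ∀ y : Fin (2 * m + 1) → Bool, MM m y + MM m (fun j => !(y j)) = 1 := by
    intro y
    have h2 : #{j | y j = true} + #{j | (!(y j)) = true} = 2 * m + 1 := by
      have h3 := Finset.card_filter_add_card_filter_not (s := (univ : Finset (Fin (2 * m + 1))))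
        (fun j => y j = true)
      rw [card_univ, Fintype.card_fin] at h3
      have h4 : (univ.filter fun j => (!(y j)) = true) = univ.filter fun j => ¬ y j = true := by
        ext j
        simp
      rw [h4]
      exact h3
    change (if m < #{j | y j = true} then (1 : ℝ) else 0) +
      (if m < #{j | (!(y j)) = true} then (1 : ℝ) else 0) = 1
    split_ifs with ha hb hb
    · omega
    · norm_num
    · norm_num
    · omega
  have h2 : ∑ y : Fin (2 * m + 1) → Bool, MM m y = ∑ y : Fin (2 * m + 1) → Bool,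
      MM m (fun j => !(y j)) := by
    refine Function.Bijective.sum_comp (e := fun (y : Fin (2 * m + 1) → Bool) j => !(y j)) ?_ _ |>.symm
    exact Function.Involutive.bijective fun y => by
      funext j
      simp
  have h3 : ∑ y : Fin (2 * m + 1) → Bool, (MM m y + MM m (fun j => !(y j))) =
      (2 : ℝ) ^ (2 * m + 1) := by
    simp only [h1]
    simp
  rw [Finset.sum_add_distrib, ← h2] at h3
  have h4 : ∑ y : Fin (2 * m + 1) → Bool, MM m y = (2 : ℝ) ^ (2 * m + 1) / 2 := by linarith
  rw [h4, one_div_pow]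
  field_simp

theorem ex_HH (L m : ℕ) : ex (1 / 2) (HH L m) = 1 - (1 / 2 : ℝ) ^ L := by
  have h := EE_block (ι := Fin L) (κ := Fin (2 * m + 1)) (S := Bool) (fun _ => coin (1 / 2))
    (fun _ y => MM m y)
  have h1 : ex (1 / 2) (HH L m) = EE (fun _ : Fin L × Fin (2 * m + 1) => coin (1 / 2))
      fun z => 1 - ∏ i, MM m (fun j => z (i, j)) := rfl
  rw [h1, EE_sub, EE_const _ fun _ => coin_sum _, h]
  have h2 : EE (fun _ : Fin (2 * m + 1) => coin (1 / 2)) (fun y => MM m y) = 1 / 2 := ex_MM m
  rw [h2, prod_const, card_univ, Fintype.card_fin]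

/-- the pivotal probability of a majority -/
theorem pivot (m : ℕ) (j : Fin (2 * m + 1)) :
    ex (1 / 2) (fun y : Fin (2 * m + 1) → Bool =>
      MM m (Function.update y j true) - MM m (Function.update y j false)) =
      (Nat.centralBinom m : ℝ) / 4 ^ m := by
  have h1 : ∀ y : Fin (2 * m + 1) → Bool,
      MM m (Function.update y j true) - MM m (Function.update y j false) =
      if #((univ.filter fun k => y k = true).erase j) = m then 1 else 0 := by
    intro y
    have ht : (univ.filter fun k => Function.update y j true k = true) =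
        insert j ((univ.filter fun k => y k = true).erase j) := by
      ext k
      by_cases hk : k = j
      · subst hk
        simp
      · simp [hk]
    have hf : (univ.filter fun k => Function.update y j false k = true) =
        (univ.filter fun k => y k = true).erase j := by
      ext k
      by_cases hk : k = j
      · subst hk
        simp
      · simp [hk]
    unfold MM
    rw [ht, hf, card_insert_of_notMem (by simp)]
    split_ifs with h2 h3 h4 h4 <;> first | omega | norm_num
  simp only [h1]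
  rw [ex_half, Fintype.card_fin]
  have hbij : Function.Bijective fun u : Fin (2 * m + 1) → Bool => univ.filter fun v => u v = true := by
    constructor
    · intro u u' h
      funext v
      have h1 := Finset.ext_iff.1 h v
      simp only [mem_filter, mem_univ, true_and] at h1
      exact Bool.eq_iff_iff.2 h1
    · intro U
      refine ⟨fun v => decide (v ∈ U), ?_⟩
      ext v
      simp
  rw [hbij.sum_comp (fun U : Finset (Fin (2 * m + 1)) => if #(U.erase j) = m then (1 : ℝ) else 0)]
  have h2 : (univ : Finset (Finset (Fin (2 * m + 1)))) = (insert j (univ.erase j)).powerset := by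
    rw [insert_erase (mem_univ j)]
    ext U
    simp
  rw [h2, sum_powerset_insert (notMem_erase j univ)]
  have h3 : ∀ t ∈ (univ.erase j : Finset (Fin (2 * m + 1))).powerset,
      (if #(t.erase j) = m then (1 : ℝ) else 0) = if #t = m then 1 else 0 := by
    intro t ht
    have : j ∉ t := fun hj => notMem_erase j univ (mem_powerset.1 ht hj)
    rw [erase_eq_of_notMem this]
  have h4 : ∀ t ∈ (univ.erase j : Finset (Fin (2 * m + 1))).powerset,
      (if #((insert j t).erase j) = m then (1 : ℝ) else 0) = if #t = m then 1 else 0 := by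
    intro t ht
    have : j ∉ t := fun hj => notMem_erase j univ (mem_powerset.1 ht hj)
    rw [erase_insert this]
  rw [Finset.sum_congr rfl h3, Finset.sum_congr rfl h4]
  have h5 : ∑ t ∈ (univ.erase j : Finset (Fin (2 * m + 1))).powerset,
      (if #t = m then (1 : ℝ) else 0) = Nat.centralBinom m := by
    rw [Finset.sum_ite, Finset.sum_const_zero, add_zero, Finset.sum_const, nsmul_eq_mul, mul_one,
      ← Finset.powersetCard_eq_filter, Finset.card_powersetCard, card_erase_of_mem (mem_univ j),
      card_univ, Fintype.card_fin, Nat.add_sub_cancel, Nat.centralBinom_eq_two_mul_choose]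
  rw [h5]
  have h6 : (1 / 2 : ℝ) ^ (2 * m + 1) = 1 / (4 ^ m * 2) := by
    rw [one_div_pow, pow_succ, pow_mul]
    norm_num
  rw [h6]
  field_simp
  ring

end Q292.Clue
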