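import Mathlib
import Pool.Agent.Q292.Clue.Func

/-!
# Influences
-/

namespace Q292.Clue

open Finset

theorem prod_special {n : ℕ} (i : Fin n) (a b : ℝ) :
    ∏ i' : Fin n, (if i' = i then a else b) = a * b ^ (n - 1) := by
  rw [← Finset.mul_prod_erase univ _ (mem_univ i), if_pos rfl]
  congr 1
  rw [Finset.prod_congr rfl (g := fun _ => b) fun x hx => if_neg (ne_of_mem_erase hx), prod_const,
    card_erase_of_mem (mem_univ i), card_univ, Fintype.card_fin]

theorem ff_mono (N K L m : ℕ) : Monotone (ff N K L m) := by
  intro ω ω' h
  rw [Bool.le_iff_imp]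
  intro h1
  unfold ff at *
  rw [decide_eq_true_eq] at *
  have hle : ∀ v, ω v = true → ω' v = true := fun v => Bool.le_iff_imp.1 (h v)
  rcases h1 with ⟨i, hi⟩ | h1
  · exact Or.inl ⟨i, fun k => hle _ (hi k)⟩
  · refine Or.inr fun l => lt_of_lt_of_le (h1 l) (card_le_card ?_)
    intro j hj
    simp only [mem_filter, mem_univ, true_and] at *
    exact hle _ hj

theorem infl_eq (N K L m : ℕ) (v : VV N K L m) :
    influence (1 / 2) (ff N K L m) v =
      ex (1 / 2) fun ω => FF N K L m (Function.update ω v false) -
        FF N K L m (Function.update ω v true) := by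
  unfold influence
  congr 1
  funext ω
  have hm : ff N K L m (Function.update ω v false) ≤ ff N K L m (Function.update ω v true) := by
    refine ff_mono N K L m ?_
    intro w
    by_cases hw : w = v
    · subst hw
      simp
    · rw [Function.update_of_ne hw, Function.update_of_ne hw]
  rw [Bool.le_iff_imp] at hm
  rw [FF_eq, FF_eq]
  cases h1 : ff N K L m (Function.update ω v true) <;>
    cases h2 : ff N K L m (Function.update ω v false) <;> simp
  rw [h1, h2] at hm
  simp at hm

theorem GG_diff (N K : ℕ) (x : Fin N × Fin K → Bool) (i : Fin N) (k : Fin K) :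
    GG N K (Function.update x (i, k) false) - GG N K (Function.update x (i, k) true) =
      ∏ i', if i' = i then ∏ k', (if k' = k then 1 else tr (x (i', k'))) else
        1 - ∏ k', tr (x (i', k')) := by
  unfold GG
  rw [← Finset.mul_prod_erase univ _ (mem_univ i), ← Finset.mul_prod_erase univ
    (fun i' => 1 - ∏ k', tr (Function.update x (i, k) true (i', k'))) (mem_univ i),
    ← Finset.mul_prod_erase univ (fun i' => if i' = i then ∏ k', (if k' = k then 1 else
      tr (x (i', k'))) else 1 - ∏ k', tr (x (i', k'))) (mem_univ i)]
  have h1 : ∀ b, ∏ i' ∈ univ.erase i, (1 - ∏ k', tr (Function.update x (i, k) b (i', k'))) =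
      ∏ i' ∈ univ.erase i, (1 - ∏ k', tr (x (i', k'))) := by
    intro b
    refine Finset.prod_congr rfl fun i' hi' => ?_
    have hne := ne_of_mem_erase hi'
    congr 1
    refine Finset.prod_congr rfl fun k' _ => ?_
    rw [Function.update_of_ne]
    intro hcon
    exact hne (Prod.ext_iff.1 hcon).1
  have h2 : ∏ i' ∈ univ.erase i, (if i' = i then ∏ k', (if k' = k then 1 else
      tr (x (i', k'))) else 1 - ∏ k', tr (x (i', k'))) =
      ∏ i' ∈ univ.erase i, (1 - ∏ k', tr (x (i', k'))) :=
    Finset.prod_congr rfl fun i' hi' => if_neg (ne_of_mem_erase hi')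
  have h3 : ∏ k', tr (Function.update x (i, k) false (i, k')) = 0 :=
    Finset.prod_eq_zero (mem_univ k) (by simp [tr])
  have h4 : ∏ k', tr (Function.update x (i, k) true (i, k')) =
      ∏ k', (if k' = k then 1 else tr (x (i, k'))) := by
    refine Finset.prod_congr rfl fun k' _ => ?_
    by_cases hk : k' = k
    · subst hk
      simp [tr]
    · rw [if_neg hk, Function.update_of_ne]
      intro hcon
      exact hk (Prod.ext_iff.1 hcon).2
  rw [h1, h1, h2, h3, h4, if_pos rfl]
  ring

theorem HH_diff (L m : ℕ) (y : Fin L × Fin (2 * m + 1) → Bool) (l : Fin L)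
    (j : Fin (2 * m + 1)) :
    HH L m (Function.update y (l, j) false) - HH L m (Function.update y (l, j) true) =
      ∏ l', if l' = l then MM m (Function.update (fun j' => y (l', j')) j true) -
        MM m (Function.update (fun j' => y (l', j')) j false) else MM m fun j' => y (l', j') := by
  unfold HH
  rw [← Finset.mul_prod_erase univ _ (mem_univ l), ← Finset.mul_prod_erase univ
    (fun l' => MM m fun j' => Function.update y (l, j) true (l', j')) (mem_univ l),
    ← Finset.mul_prod_erase univ (fun l' => if l' = l then
      MM m (Function.update (fun j' => y (l', j')) j true) -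
        MM m (Function.update (fun j' => y (l', j')) j false) else MM m fun j' => y (l', j'))
      (mem_univ l)]
  have h1 : ∀ b, ∏ l' ∈ univ.erase l, (MM m fun j' => Function.update y (l, j) b (l', j')) =
      ∏ l' ∈ univ.erase l, MM m fun j' => y (l', j') := by
    intro b
    refine Finset.prod_congr rfl fun l' hl' => ?_
    have hne := ne_of_mem_erase hl'
    congr 1
    funext j'
    rw [Function.update_of_ne]
    intro hcon
    exact hne (Prod.ext_iff.1 hcon).1
  have h2 : ∏ l' ∈ univ.erase l, (if l' = l then
      MM m (Function.update (fun j' => y (l', j')) j true) -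
        MM m (Function.update (fun j' => y (l', j')) j false) else MM m fun j' => y (l', j')) =
      ∏ l' ∈ univ.erase l, MM m fun j' => y (l', j') :=
    Finset.prod_congr rfl fun l' hl' => if_neg (ne_of_mem_erase hl')
  have h3 : ∀ b, (fun j' => Function.update y (l, j) b (l, j')) =
      Function.update (fun j' => y (l, j')) j b := by
    intro b
    funext j'
    by_cases hj : j' = j
    · subst hj
      simp
    · rw [Function.update_of_ne hj, Function.update_of_ne]
      intro hcon
      exact hj (Prod.ext_iff.1 hcon).2
  rw [h1, h1, h2, h3, h3, if_pos rfl]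
  ring

theorem update_inl {A B : Type*} [DecidableEq A] [DecidableEq B] (ω : A ⊕ B → Bool) (a : A)
    (b : Bool) : (fun a' => Function.update ω (Sum.inl a) b (Sum.inl a')) =
      Function.update (fun a' => ω (Sum.inl a')) a b ∧
    (fun b' => Function.update ω (Sum.inl a) b (Sum.inr b')) = fun b' => ω (Sum.inr b') := by
  constructor
  · funext a'
    by_cases h : a' = a
    · subst h
      simp
    · rw [Function.update_of_ne h, Function.update_of_ne]
      intro hcon
      exact h (Sum.inl.inj hcon)
  · funext b'
    rw [Function.update_of_ne]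
    simp

theorem update_inr {A B : Type*} [DecidableEq A] [DecidableEq B] (ω : A ⊕ B → Bool) (c : B)
    (b : Bool) : (fun b' => Function.update ω (Sum.inr c) b (Sum.inr b')) =
      Function.update (fun b' => ω (Sum.inr b')) c b ∧
    (fun a' => Function.update ω (Sum.inr c) b (Sum.inl a')) = fun a' => ω (Sum.inl a') := by
  constructor
  · funext a'
    by_cases h : a' = c
    · subst h
      simp
    · rw [Function.update_of_ne h, Function.update_of_ne]
      intro hcon
      exact h (Sum.inr.inj hcon)
  · funext b'
    rw [Function.update_of_ne]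
    simp

theorem infl_inl (N K L m : ℕ) (i : Fin N) (k : Fin K) :
    influence (1 / 2) (ff N K L m) (Sum.inl (i, k)) =
      (1 / 2 : ℝ) ^ (K - 1) * (1 - (1 / 2 : ℝ) ^ K) ^ (N - 1) * (1 - (1 / 2 : ℝ) ^ L) := by
  rw [infl_eq]
  have h1 : (fun ω : VV N K L m → Bool => FF N K L m (Function.update ω (Sum.inl (i, k)) false) -
      FF N K L m (Function.update ω (Sum.inl (i, k)) true)) =
      fun ω => (fun x => GG N K (Function.update x (i, k) false) -
        GG N K (Function.update x (i, k) true)) (fun a => ω (Sum.inl a)) *
        HH L m (fun b => ω (Sum.inr b)) := by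
    funext ω
    unfold FF
    rw [(update_inl ω (i, k) false).1, (update_inl ω (i, k) false).2,
      (update_inl ω (i, k) true).1, (update_inl ω (i, k) true).2]
    ring
  rw [h1, ex_prod (1 / 2) (fun x : Fin N × Fin K → Bool => GG N K (Function.update x (i, k) false) -
    GG N K (Function.update x (i, k) true)) (HH L m), ex_HH]
  congr 1
  simp only [GG_diff]
  have h := EE_block (ι := Fin N) (κ := Fin K) (S := Bool) (fun _ => coin (1 / 2))
    (fun i' y => if i' = i then ∏ k', (if k' = k then 1 else tr (y k')) else 1 - ∏ k', tr (y k'))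
  rw [ex_eq, h]
  have h2 : EE (fun _ : Fin K => coin (1 / 2)) (fun y => 1 - ∏ k, tr (y k)) =
      1 - (1 / 2 : ℝ) ^ K := by
    rw [EE_sub, EE_const _ fun _ => coin_sum _]
    have h3 := EE_prod (V := Fin K) (fun _ => coin (1 / 2)) (fun _ => tr)
    rw [h3]
    simp only [ex_tr, prod_const, card_univ, Fintype.card_fin]
  have h3 : EE (fun _ : Fin K => coin (1 / 2)) (fun y => ∏ k', (if k' = k then 1 else tr (y k'))) =
      (1 / 2 : ℝ) ^ (K - 1) := by
    have h4 := EE_prod (V := Fin K) (fun _ => coin (1 / 2))
      (fun k' s => if k' = k then 1 else tr s)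
    rw [h4]
    have h5 : ∀ k' : Fin K, (∑ s, coin (1 / 2) s * (if k' = k then 1 else tr s)) =
        if k' = k then 1 else 1 / 2 := by
      intro k'
      split_ifs with hk
      · simp only [mul_one, coin_sum]
      · exact ex_tr
    simp only [h5]
    rw [prod_special, one_mul]
  have h4 : ∀ i' : Fin N, EE (fun _ : Fin K => coin (1 / 2)) (fun y => if i' = i then
      ∏ k', (if k' = k then 1 else tr (y k')) else 1 - ∏ k', tr (y k')) =
      if i' = i then (1 / 2 : ℝ) ^ (K - 1) else 1 - (1 / 2 : ℝ) ^ K := by
    intro i'
    split_ifs with hi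
    · exact h3
    · exact h2
  simp only [h4]
  rw [prod_special]

theorem infl_inr (N K L m : ℕ) (l : Fin L) (j : Fin (2 * m + 1)) :
    influence (1 / 2) (ff N K L m) (Sum.inr (l, j)) =
      (1 - (1 / 2 : ℝ) ^ K) ^ N * ((Nat.centralBinom m : ℝ) / 4 ^ m * (1 / 2) ^ (L - 1)) := by
  rw [infl_eq]
  have h1 : (fun ω : VV N K L m → Bool => FF N K L m (Function.update ω (Sum.inr (l, j)) false) -
      FF N K L m (Function.update ω (Sum.inr (l, j)) true)) =
      fun ω => GG N K (fun a => ω (Sum.inl a)) * (fun y => HH L m (Function.update y (l, j) false) -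
        HH L m (Function.update y (l, j) true)) (fun b => ω (Sum.inr b)) := by
    funext ω
    unfold FF
    rw [(update_inr ω (l, j) false).1, (update_inr ω (l, j) false).2,
      (update_inr ω (l, j) true).1, (update_inr ω (l, j) true).2]
    ring
  rw [h1, ex_prod (1 / 2) (GG N K) (fun y : Fin L × Fin (2 * m + 1) → Bool =>
    HH L m (Function.update y (l, j) false) - HH L m (Function.update y (l, j) true)), ex_GG]
  congr 1
  simp only [HH_diff]
  have h := EE_block (ι := Fin L) (κ := Fin (2 * m + 1)) (S := Bool) (fun _ => coin (1 / 2))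
    (fun l' y => if l' = l then MM m (Function.update y j true) -
        MM m (Function.update y j false) else MM m y)
  rw [ex_eq, h]
  have h4 : ∀ l' : Fin L, EE (fun _ : Fin (2 * m + 1) => coin (1 / 2)) (fun y => if l' = l then
      MM m (Function.update y j true) - MM m (Function.update y j false) else MM m y) =
      if l' = l then (Nat.centralBinom m : ℝ) / 4 ^ m else 1 / 2 := by
    intro l'
    split_ifs with hi
    · exact pivot m j
    · exact ex_MM m
  simp only [h4]
  rw [prod_special]

end Q292.Clue
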