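import Mathlib
import Pool.Agent.Q292.Clue.Infl

/-!
# The sequence of functions
-/

namespace Q292.Clue

open Finset Filter Topology

/-! ### Elementary inequalities -/

theorem cb_succ (m : ℕ) : (Nat.centralBinom (m + 1) : ℝ) / 4 ^ (m + 1) =
    (Nat.centralBinom m : ℝ) / 4 ^ m * ((2 * m + 1) / (2 * (m + 1))) := by
  have h := Nat.succ_mul_centralBinom_succ m
  have h1 : ((m : ℝ) + 1) * Nat.centralBinom (m + 1) = 2 * (2 * m + 1) * Nat.centralBinom m := by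
    exact_mod_cast h
  have h2 : ((m : ℝ) + 1) ≠ 0 := by positivity
  have h3 : (Nat.centralBinom (m + 1) : ℝ) = 2 * (2 * m + 1) * Nat.centralBinom m / (m + 1) := by
    rw [← h1]
    field_simp
  rw [h3, pow_succ]
  field_simp
  ring

theorem cb_upper (m : ℕ) : (2 * (m : ℝ) + 1) * ((Nat.centralBinom m : ℝ) / 4 ^ m) ^ 2 ≤ 1 := by
  induction m with
  | zero => simp
  | succ m ih =>
    rw [cb_succ]
    set c := (Nat.centralBinom m : ℝ) / 4 ^ m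
    have h1 : (2 * ((m + 1 : ℕ) : ℝ) + 1) * (c * ((2 * m + 1) / (2 * (m + 1)))) ^ 2 =
        ((2 * (m : ℝ) + 1) * c ^ 2) * ((2 * m + 3) * (2 * m + 1) / (4 * (m + 1) ^ 2)) := by
      push_cast
      field_simp
      ring
    rw [h1]
    have h2 : ((2 * (m : ℝ) + 3) * (2 * m + 1) / (4 * (m + 1) ^ 2)) ≤ 1 := by
      rw [div_le_one (by positivity)]
      nlinarith
    exact mul_le_one₀ ih (by positivity) h2

theorem cb_lower (m : ℕ) (hm : 1 ≤ m) :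
    1 ≤ (4 * (m : ℝ)) * ((Nat.centralBinom m : ℝ) / 4 ^ m) ^ 2 := by
  induction m, hm using Nat.le_induction with
  | base =>
    have : Nat.centralBinom 1 = 2 := by decide
    rw [this]
    norm_num
  | succ m hm ih =>
    rw [cb_succ]
    set c := (Nat.centralBinom m : ℝ) / 4 ^ m
    have hm' : (1 : ℝ) ≤ m := by exact_mod_cast hm
    have h1 : (4 * ((m + 1 : ℕ) : ℝ)) * (c * ((2 * m + 1) / (2 * (m + 1)))) ^ 2 =
        ((4 * (m : ℝ)) * c ^ 2) * ((2 * m + 1) ^ 2 / (4 * m * (m + 1))) := by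
      push_cast
      field_simp
      ring
    rw [h1]
    have h2 : 1 ≤ ((2 * (m : ℝ) + 1) ^ 2 / (4 * m * (m + 1))) := by
      rw [le_div_iff₀ (by positivity)]
      nlinarith
    calc (1 : ℝ) = 1 * 1 := by ring
      _ ≤ _ := mul_le_mul ih h2 zero_le_one (by linarith)

theorem sq_aux {r c : ℝ} (hr : 1 ≤ r) (hc : 0 ≤ c) (h1 : (2 * r ^ 2 + 1) * c ^ 2 ≤ 1)
    (h2 : 1 ≤ 4 * r ^ 2 * c ^ 2) : 1 / (2 * r) ≤ c ∧ c ≤ 1 / r := by
  constructor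
  · rw [div_le_iff₀ (by positivity)]
    by_contra hcon
    push Not at hcon
    have h3 : 0 < (1 - c * (2 * r)) * (1 + c * (2 * r)) :=
      mul_pos (sub_pos.2 hcon) (by positivity)
    nlinarith
  · rw [le_div_iff₀ (by positivity)]
    by_contra hcon
    push Not at hcon
    nlinarith [sq_nonneg c]

/-- central binomial bounds at squares -/
theorem cb_sq (r : ℕ) (hr : 1 ≤ r) : 1 / (2 * (r : ℝ)) ≤
    (Nat.centralBinom (r ^ 2) : ℝ) / 4 ^ (r ^ 2) ∧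
    (Nat.centralBinom (r ^ 2) : ℝ) / 4 ^ (r ^ 2) ≤ 1 / r := by
  have hr' : (1 : ℝ) ≤ r := by exact_mod_cast hr
  have h1 := cb_upper (r ^ 2)
  have h2 := cb_lower (r ^ 2) (Nat.one_le_pow _ _ hr)
  have hc : 0 ≤ (Nat.centralBinom (r ^ 2) : ℝ) / 4 ^ (r ^ 2) := by positivity
  rw [Nat.cast_pow] at h1 h2
  exact sq_aux hr' hc h1 h2

theorem pow_ge_quarter (K : ℕ) (hK : 1 ≤ K) : 1 / 4 ≤ (1 - (1 / 2 : ℝ) ^ K) ^ 2 ^ K := by
  obtain ⟨k, rfl⟩ : ∃ k, K = k + 1 := ⟨K - 1, by omega⟩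
  have h1 := one_add_mul_le_pow (a := -(1 / 2 : ℝ) ^ (k + 1)) (by
    have : (1 / 2 : ℝ) ^ (k + 1) ≤ 1 := pow_le_one₀ (by norm_num) (by norm_num)
    linarith) (2 ^ k)
  have h2 : ((2 ^ k : ℕ) : ℝ) * (-(1 / 2 : ℝ) ^ (k + 1)) = -1 / 2 := by
    push_cast
    rw [one_div_pow, pow_succ]
    field_simp
  rw [h2] at h1
  have h3 : (1 - (1 / 2 : ℝ) ^ (k + 1)) ^ 2 ^ (k + 1) = ((1 + -(1 / 2 : ℝ) ^ (k + 1)) ^ 2 ^ k) ^ 2 := by
    rw [← pow_mul, pow_succ 2 k]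
    congr 1
  rw [h3]
  nlinarith

theorem pow_le_half (K : ℕ) : (1 - (1 / 2 : ℝ) ^ K) ^ 2 ^ K ≤ 1 / 2 := by
  set x := (1 / 2 : ℝ) ^ K with hx
  have hx0 : 0 < x := by positivity
  have hx1 : x ≤ 1 := pow_le_one₀ (by norm_num) (by norm_num)
  have h1 : (1 - x) ^ 2 ^ K * (1 + x) ^ 2 ^ K ≤ 1 := by
    rw [← mul_pow]
    exact pow_le_one₀ (by nlinarith) (by nlinarith)
  have h2 := one_add_mul_le_pow (a := x) (by linarith) (2 ^ K)
  have h3 : ((2 ^ K : ℕ) : ℝ) * x = 1 := by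
    push_cast
    rw [hx, ← mul_pow]
    norm_num
  rw [h3] at h2
  have h4 : 0 ≤ (1 - x) ^ 2 ^ K := pow_nonneg (by linarith) _
  nlinarith

theorem pow_sub_upper {a b : ℝ} (hb : 0 ≤ b) (hab : b ≤ a) (ha : a ≤ 1) (n : ℕ) :
    a ^ n - b ^ n ≤ n * (a - b) := by
  induction n with
  | zero => simp
  | succ n ih =>
    have h1 : a ^ (n + 1) - b ^ (n + 1) = a * (a ^ n - b ^ n) + (a - b) * b ^ n := by ring
    have h2 : 0 ≤ a ^ n - b ^ n := sub_nonneg.2 (pow_le_pow_left₀ hb hab n)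
    have h3 : a * (a ^ n - b ^ n) ≤ 1 * (a ^ n - b ^ n) := mul_le_mul_of_nonneg_right ha h2
    have h4 : b ^ n ≤ 1 := pow_le_one₀ hb (hab.trans ha)
    have h5 : (a - b) * b ^ n ≤ (a - b) * 1 := mul_le_mul_of_nonneg_left h4 (by linarith)
    push_cast
    rw [h1]
    linarith

theorem pow_sub_lower {a b : ℝ} (hb : 0 ≤ b) (hab : b ≤ a) (hb1 : b ≤ 1) (n : ℕ) :
    n * (a - b) * b ^ n ≤ a ^ n - b ^ n := by
  induction n with
  | zero => simp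
  | succ n ih =>
    have h1 : a ^ (n + 1) - b ^ (n + 1) = a * (a ^ n - b ^ n) + (a - b) * b ^ n := by ring
    have h2 : 0 ≤ a ^ n - b ^ n := sub_nonneg.2 (pow_le_pow_left₀ hb hab n)
    have h3 : b * (a ^ n - b ^ n) ≤ a * (a ^ n - b ^ n) := mul_le_mul_of_nonneg_right hab h2
    have h4 : b * (n * (a - b) * b ^ n) ≤ b * (a ^ n - b ^ n) := mul_le_mul_of_nonneg_left ih hb
    have h6 : (a - b) * b ^ n * b ≤ (a - b) * b ^ n * 1 :=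
      mul_le_mul_of_nonneg_left hb1 (mul_nonneg (by linarith) (pow_nonneg hb n))
    push_cast
    rw [h1, pow_succ]
    nlinarith

/-! ### The composite function -/

section
variable (K L m : ℕ)

/-- `P(no tribe)` -/
noncomputable def gam : ℝ := (1 - (1 / 2 : ℝ) ^ K) ^ 2 ^ K

theorem half_pow_le {L : ℕ} (hL : 1 ≤ L) : (1 / 2 : ℝ) ^ L ≤ 1 / 2 := by
  calc (1 / 2 : ℝ) ^ L ≤ (1 / 2 : ℝ) ^ 1 := pow_le_pow_of_le_one (by norm_num) (by norm_num) hL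
    _ = 1 / 2 := by norm_num

theorem ex_FF (N : ℕ) : ex (1 / 2) (FF N K L m) =
    (1 - (1 / 2 : ℝ) ^ K) ^ N * (1 - (1 / 2 : ℝ) ^ L) := by
  have h := ex_prod (1 / 2) (GG N K) (HH L m)
  rw [ex_GG, ex_HH] at h
  exact h

theorem FF_sq (N : ℕ) (ω : VV N K L m → Bool) : FF N K L m ω * FF N K L m ω = FF N K L m ω := by
  rw [FF_eq]
  split_ifs <;> norm_num

theorem vari_FF (N : ℕ) : vari (1 / 2) (FF N K L m) =
    ex (1 / 2) (FF N K L m) - ex (1 / 2) (FF N K L m) ^ 2 := by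
  rw [vari_eq]
  simp only [FF_sq]

theorem vari_val (N : ℕ) : vari (1 / 2) (fun ω => val (ff N K L m ω)) =
    4 * vari (1 / 2) (FF N K L m) := by
  simp only [val_ff]
  rw [vari_affine]
  norm_num

theorem DD_val (N : ℕ) (δ : ℝ) : DD (1 / 2) δ (fun ω => val (ff N K L m ω)) =
    4 * DD (1 / 2) δ (FF N K L m) := by
  simp only [val_ff]
  rw [DD_affine]
  norm_num

theorem DD_FF (N : ℕ) (δ : ℝ) : DD (1 / 2) δ (FF N K L m) =
    (1 - 2 * (1 / 2 : ℝ) ^ K + ((1 + δ) / 4) ^ K) ^ N * TT (1 / 2) δ (HH L m) (HH L m) -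
    ((1 - (1 / 2 : ℝ) ^ K) ^ N * (1 - (1 / 2 : ℝ) ^ L)) ^ 2 := by
  have h := TT_prod (1 / 2) δ (GG N K) (GG N K) (HH L m) (HH L m)
  rw [TT_GG] at h
  unfold DD
  rw [ex_FF, ← h]
  rfl

/-- bounds for `N (t - e²)` -/
theorem tt_bounds {δ : ℝ} (hδ0 : 0 ≤ δ) (hδ1 : δ ≤ 1) :
    (1 - (1 / 2 : ℝ) ^ K) ^ 2 ≤ 1 - 2 * (1 / 2 : ℝ) ^ K + ((1 + δ) / 4) ^ K ∧
    1 - 2 * (1 / 2 : ℝ) ^ K + ((1 + δ) / 4) ^ K ≤ 1 ∧
    (2 : ℝ) ^ K * (1 - 2 * (1 / 2 : ℝ) ^ K + ((1 + δ) / 4) ^ K - (1 - (1 / 2 : ℝ) ^ K) ^ 2) =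
      ((1 + δ) ^ K - 1) / 2 ^ K := by
  have h1 : (1 - (1 / 2 : ℝ) ^ K) ^ 2 = 1 - 2 * (1 / 2 : ℝ) ^ K + (1 / 4 : ℝ) ^ K := by
    have : (1 / 4 : ℝ) ^ K = ((1 / 2 : ℝ) ^ K) ^ 2 := by
      rw [← pow_mul, mul_comm, pow_mul]
      norm_num
    rw [this]
    ring
  have h2 : (1 / 4 : ℝ) ^ K ≤ ((1 + δ) / 4) ^ K := pow_le_pow_left₀ (by norm_num) (by linarith) K
  have h3 : ((1 + δ) / 4) ^ K ≤ (1 / 2 : ℝ) ^ K :=
    pow_le_pow_left₀ (by positivity) (by linarith) K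
  refine ⟨by rw [h1]; linarith, ?_, ?_⟩
  · have : (0 : ℝ) ≤ (1 / 2 : ℝ) ^ K := by positivity
    linarith
  · rw [h1]
    have h4 : ((1 + δ) / 4) ^ K = (1 + δ) ^ K / (2 ^ K * 2 ^ K) := by
      rw [div_pow, ← mul_pow]
      norm_num
    have h5 : (1 / 4 : ℝ) ^ K = 1 / (2 ^ K * 2 ^ K) := by
      rw [one_div_pow, ← mul_pow]
      norm_num
    rw [h4, h5]
    field_simp
    ring

theorem DD_upper {δ : ℝ} (hδ0 : 0 ≤ δ) (hδ1 : δ ≤ 1) (hK : 1 ≤ K) (hL : 1 ≤ L) :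
    DD (1 / 2) δ (FF (2 ^ K) K L m) ≤ ((1 + δ) / 2) ^ K + (1 / 2 : ℝ) ^ L := by
  rw [DD_FF]
  obtain ⟨h1, h2, h3⟩ := tt_bounds K hδ0 hδ1
  set t := 1 - 2 * (1 / 2 : ℝ) ^ K + ((1 + δ) / 4) ^ K
  set e := 1 - (1 / 2 : ℝ) ^ K with he
  set h := 1 - (1 / 2 : ℝ) ^ L with hh
  have hLp := half_pow_le hL
  have hKp := half_pow_le hK
  have hL0 : (0 : ℝ) ≤ (1 / 2 : ℝ) ^ L := by positivity
  have hK0 : (0 : ℝ) ≤ (1 / 2 : ℝ) ^ K := by positivity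
  have hT : TT (1 / 2) δ (HH L m) (HH L m) ≤ h := by
    rw [hh, ← ex_HH L m]
    exact TT_le (by norm_num) (by norm_num) hδ0 hδ1 (fun y => (HH_mem L m y).1)
      fun y => (HH_mem L m y).2
  have hsub : t ^ 2 ^ K - (e ^ 2) ^ 2 ^ K ≤ ((1 + δ) ^ K - 1) / 2 ^ K := by
    have h4 := pow_sub_upper (sq_nonneg e) h1 h2 (2 ^ K)
    rw [← h3]
    push_cast at h4
    exact h4
  have ht0 : 0 ≤ t := (sq_nonneg e).trans h1
  have hE : (e ^ 2 ^ K * h) ^ 2 = (e ^ 2) ^ 2 ^ K * h ^ 2 := by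
    rw [mul_pow, ← pow_mul, ← pow_mul, mul_comm 2]
  rw [hE]
  have ha : 0 ≤ (e ^ 2) ^ 2 ^ K := by positivity
  have ha1 : (e ^ 2) ^ 2 ^ K ≤ 1 := pow_le_one₀ (sq_nonneg e) (h1.trans h2)
  have hab : (e ^ 2) ^ 2 ^ K ≤ t ^ 2 ^ K := pow_le_pow_left₀ (sq_nonneg e) h1 _
  have hpow : ((1 + δ) ^ K - 1) / 2 ^ K ≤ ((1 + δ) / 2) ^ K := by
    rw [div_pow]
    exact div_le_div_of_nonneg_right (by linarith) (by positivity)
  have hb : t ^ 2 ^ K * TT (1 / 2) δ (HH L m) (HH L m) ≤ t ^ 2 ^ K * h :=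
    mul_le_mul_of_nonneg_left hT (by positivity)
  generalize (e ^ 2) ^ 2 ^ K = a at *
  generalize t ^ 2 ^ K = b at *
  have hh0 : 0 ≤ h := by linarith
  have hh1 : h ≤ 1 := by linarith
  have h5 : b * h - a * h ^ 2 = (b - a) * h + a * h * (1 - h) := by ring
  have h6 : (b - a) * h ≤ (b - a) * 1 := mul_le_mul_of_nonneg_left hh1 (by linarith)
  have h7 : a * h ≤ 1 := mul_le_one₀ ha1 hh0 hh1
  have h8 : a * h * (1 - h) ≤ 1 * (1 - h) := mul_le_mul_of_nonneg_right h7 (by linarith)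
  have h9 : 1 - h = (1 / 2 : ℝ) ^ L := by
    rw [hh]
    ring
  linarith

theorem DD_lower {δ : ℝ} (hδ0 : 0 ≤ δ) (hδ1 : δ ≤ 1) (hK : 1 ≤ K) (hL : 1 ≤ L) :
    ((1 + δ) ^ K - 1) / 2 ^ K / 64 ≤ DD (1 / 2) δ (FF (2 ^ K) K L m) := by
  rw [DD_FF]
  obtain ⟨h1, h2, h3⟩ := tt_bounds K hδ0 hδ1
  have hg := pow_ge_quarter K hK
  set t := 1 - 2 * (1 / 2 : ℝ) ^ K + ((1 + δ) / 4) ^ K
  set e := 1 - (1 / 2 : ℝ) ^ K with he
  set h := 1 - (1 / 2 : ℝ) ^ L with hh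
  have hLp := half_pow_le hL
  have hT : h ^ 2 ≤ TT (1 / 2) δ (HH L m) (HH L m) := by
    have h4 := DD_nonneg (p := 1 / 2) (by norm_num) (by norm_num) hδ0 hδ1 (HH L m)
    unfold DD at h4
    rw [ex_HH] at h4
    linarith
  have ht0 : 0 ≤ t := (sq_nonneg e).trans h1
  have hE : (e ^ 2 ^ K * h) ^ 2 = (e ^ 2) ^ 2 ^ K * h ^ 2 := by
    rw [mul_pow, ← pow_mul, ← pow_mul, mul_comm 2]
  rw [hE]
  have hsub := pow_sub_lower (sq_nonneg e) h1 (h1.trans h2) (2 ^ K)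
  push_cast at hsub
  rw [h3] at hsub
  have hq : 1 / 16 ≤ (e ^ 2) ^ 2 ^ K := by
    rw [← pow_mul, mul_comm 2, pow_mul]
    nlinarith
  have hnn : 0 ≤ ((1 + δ) ^ K - 1) / 2 ^ K := by
    rw [← h3]
    exact mul_nonneg (by positivity) (by linarith)
  have hb : t ^ 2 ^ K * h ^ 2 ≤ t ^ 2 ^ K * TT (1 / 2) δ (HH L m) (HH L m) :=
    mul_le_mul_of_nonneg_left hT (by positivity)
  have h5 : ((1 + δ) ^ K - 1) / 2 ^ K * (1 / 16) ≤ ((1 + δ) ^ K - 1) / 2 ^ K * (e ^ 2) ^ 2 ^ K :=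
    mul_le_mul_of_nonneg_left hq hnn
  have h6 : ((1 + δ) ^ K - 1) / 2 ^ K * (1 / 16) ≤ t ^ 2 ^ K - (e ^ 2) ^ 2 ^ K := h5.trans hsub
  have h7 : 1 / 4 ≤ h ^ 2 := by nlinarith
  have h8 : ((1 + δ) ^ K - 1) / 2 ^ K * (1 / 16) * (1 / 4) ≤
      (t ^ 2 ^ K - (e ^ 2) ^ 2 ^ K) * h ^ 2 :=
    mul_le_mul h6 h7 (by norm_num) (le_trans (mul_nonneg hnn (by norm_num)) h6)
  have h9 : ((1 + δ) ^ K - 1) / 2 ^ K / 64 = ((1 + δ) ^ K - 1) / 2 ^ K * (1 / 16) * (1 / 4) := by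
    ring
  rw [h9]
  linarith

theorem ex_bounds (hK : 1 ≤ K) (hL : 1 ≤ L) : 1 / 8 ≤ ex (1 / 2) (FF (2 ^ K) K L m) ∧
    ex (1 / 2) (FF (2 ^ K) K L m) ≤ 1 / 2 := by
  rw [ex_FF]
  have h1 := pow_ge_quarter K hK
  have h2 := pow_le_half K
  have h3 := half_pow_le hL
  have h4 : (0 : ℝ) ≤ (1 / 2 : ℝ) ^ L := by positivity
  constructor
  · nlinarith
  · nlinarith

/-! ### Clue of the tribes -/

theorem condEx_FF (N : ℕ) (ω : VV N K L m → Bool) :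
    condEx (1 / 2) (univ.image Sum.inl) (FF N K L m) ω =
      GG N K (fun a => ω (Sum.inl a)) * (1 - (1 / 2 : ℝ) ^ L) := by
  unfold condEx
  have h1 : ∀ ω' : VV N K L m → Bool, FF N K L m (mix (univ.image Sum.inl) ω ω') =
      GG N K (fun a => ω (Sum.inl a)) * HH L m (fun b => ω' (Sum.inr b)) := by
    intro ω'
    unfold FF mix
    congr 2
    · funext a
      rw [if_pos (mem_image_of_mem _ (mem_univ a))]
    · funext b
      rw [if_neg (by simp)]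
  simp only [h1]
  rw [ex_mul]
  congr 1
  have h2 := ex_prod (1 / 2) (fun _ : Fin N × Fin K → Bool => (1 : ℝ)) (HH L m)
  simp only [one_mul] at h2
  rw [h2, ex_const, one_mul, ex_HH]

theorem vari_cond (N : ℕ) : vari (1 / 2) (condEx (1 / 2) (univ.image Sum.inl) (FF N K L m)) =
    (1 - (1 / 2 : ℝ) ^ L) ^ 2 * ((1 - (1 / 2 : ℝ) ^ K) ^ N - ((1 - (1 / 2 : ℝ) ^ K) ^ N) ^ 2) := by
  have h1 : condEx (1 / 2) (univ.image Sum.inl) (FF N K L m) =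
      fun ω => 0 + (1 - (1 / 2 : ℝ) ^ L) * GG N K (fun a => ω (Sum.inl a)) := by
    funext ω
    rw [condEx_FF]
    ring
  rw [h1, vari_affine, vari_eq]
  congr 1
  have h2 : (fun ω : VV N K L m → Bool => GG N K (fun a => ω (Sum.inl a)) *
      GG N K (fun a => ω (Sum.inl a))) = fun ω => GG N K (fun a => ω (Sum.inl a)) := by
    funext ω
    rw [GG_eq]
    split_ifs <;> norm_num
  have h3 : ex (1 / 2) (fun ω : VV N K L m → Bool => GG N K (fun a => ω (Sum.inl a))) =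
      (1 - (1 / 2 : ℝ) ^ K) ^ N := by
    have h4 := ex_prod (1 / 2) (GG N K) (fun _ : Fin L × Fin (2 * m + 1) → Bool => (1 : ℝ))
    simp only [mul_one] at h4
    rw [h4, ex_const, mul_one, ex_GG]
  rw [h2, h3]

theorem clue_tribes (hK : 1 ≤ K) (hL : 1 ≤ L) :
    1 - 2 * (1 / 2 : ℝ) ^ L ≤ clue (1 / 2) (ff (2 ^ K) K L m) (univ.image Sum.inl) := by
  unfold clue
  have h1 : (condEx (1 / 2) (univ.image Sum.inl) fun ω => val (ff (2 ^ K) K L m ω)) =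
      fun ω => 1 + (-2) * condEx (1 / 2) (univ.image Sum.inl) (FF (2 ^ K) K L m) ω := by
    simp only [val_ff]
    exact condEx_affine _ _ _ _ _
  rw [h1, vari_affine, vari_cond, vari_val, vari_FF, ex_FF]
  have hg1 := pow_ge_quarter K hK
  have hg2 := pow_le_half K
  have hLp := half_pow_le hL
  have hL0 : (0 : ℝ) < (1 / 2 : ℝ) ^ L := by positivity
  generalize (1 - (1 / 2 : ℝ) ^ K) ^ 2 ^ K = g at *
  generalize (1 / 2 : ℝ) ^ L = τ at *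
  have hpos : 0 < 4 * (g * (1 - τ) - (g * (1 - τ)) ^ 2) := by
    have h5 : 0 < g * (1 - τ) := mul_pos (by linarith) (by linarith)
    have h6 : g * (1 - τ) ≤ 1 / 2 := by nlinarith
    nlinarith
  rw [le_div_iff₀ hpos]
  have h7 : (-2) ^ 2 * ((1 - τ) ^ 2 * (g - g ^ 2)) -
      (1 - 2 * τ) * (4 * (g * (1 - τ) - (g * (1 - τ)) ^ 2)) =
      4 * (g * (1 - τ)) * (τ * (1 - 2 * (g * (1 - τ)))) := by ring
  have h8 : 0 ≤ 4 * (g * (1 - τ)) * (τ * (1 - 2 * (g * (1 - τ)))) := by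
    have h5 : 0 < g * (1 - τ) := mul_pos (by linarith) (by linarith)
    have h6 : g * (1 - τ) ≤ 1 / 2 := by nlinarith
    refine mul_nonneg (by linarith) (mul_nonneg hL0.le (by linarith))
  linarith

end

end Q292.Clue
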