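import Mathlib
import Pool.Agent.Q292.Clue.Main

/-!
# Asymptotics
-/

namespace Q292.Clue

open Finset Filter Topology

/-- number of majorities -/
def LL (n : ℕ) : ℕ := n + 1

/-- tribe size -/
def KK (n : ℕ) : ℕ := (n + 1) ^ 2

/-- the majorities have `2 * mn n + 1` bits -/
def mn (n : ℕ) : ℕ := (2 ^ (KK n - LL n)) ^ 2

theorem LL_pos (n : ℕ) : 1 ≤ LL n := Nat.succ_le_succ (Nat.zero_le n)

theorem KK_pos (n : ℕ) : 1 ≤ KK n := Nat.one_le_pow _ _ (Nat.succ_pos n)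

theorem LL_le_KK (n : ℕ) : LL n ≤ KK n := by
  unfold LL KK
  nlinarith

/-- the vertex sets -/
abbrev Vn (n : ℕ) := VV (2 ^ KK n) (KK n) (LL n) (mn n)

/-- the functions -/
def fn (n : ℕ) : (Vn n → Bool) → Bool := ff (2 ^ KK n) (KK n) (LL n) (mn n)

theorem infl_bounds (n : ℕ) (v : Vn n) :
    (1 / 2 : ℝ) ^ (KK n - 1) / 8 ≤ influence (1 / 2) (fn n) v ∧
    influence (1 / 2) (fn n) v ≤ (1 / 2 : ℝ) ^ (KK n - 1) := by
  have hK := KK_pos n
  have hL := LL_pos n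
  have hLK := LL_le_KK n
  have hg1 := pow_ge_quarter (KK n) hK
  have hg2 := pow_le_half (KK n)
  have hLp := half_pow_le hL
  have hL0 : (0 : ℝ) < (1 / 2 : ℝ) ^ LL n := by positivity
  have hKp := half_pow_le hK
  have hK0 : (0 : ℝ) < (1 / 2 : ℝ) ^ KK n := by positivity
  have hq : (0 : ℝ) < (1 / 2 : ℝ) ^ (KK n - 1) := by positivity
  rcases v with ⟨i, k⟩ | ⟨l, j⟩
  · unfold fn
    rw [infl_inl]
    have h1 : (1 - (1 / 2 : ℝ) ^ KK n) ^ 2 ^ KK n ≤ (1 - (1 / 2 : ℝ) ^ KK n) ^ (2 ^ KK n - 1) :=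
      pow_le_pow_of_le_one (by linarith) (by linarith) (Nat.sub_le _ _)
    have h2 : (1 - (1 / 2 : ℝ) ^ KK n) ^ (2 ^ KK n - 1) ≤ 1 :=
      pow_le_one₀ (by linarith) (by linarith)
    have h3 : 1 / 8 ≤ (1 - (1 / 2 : ℝ) ^ KK n) ^ (2 ^ KK n - 1) * (1 - (1 / 2 : ℝ) ^ LL n) := by
      nlinarith
    have h4 : (1 - (1 / 2 : ℝ) ^ KK n) ^ (2 ^ KK n - 1) * (1 - (1 / 2 : ℝ) ^ LL n) ≤ 1 :=
      mul_le_one₀ h2 (by linarith) (by linarith)
    rw [mul_assoc]
    constructor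
    · have := mul_le_mul_of_nonneg_left h3 hq.le
      linarith
    · have := mul_le_mul_of_nonneg_left h4 hq.le
      linarith
  · unfold fn
    rw [infl_inr]
    have h1 := cb_sq (2 ^ (KK n - LL n)) (Nat.one_le_pow _ _ (by norm_num))
    push_cast at h1
    have h2 : (1 / (2 * (2 : ℝ) ^ (KK n - LL n))) * (1 / 2) ^ (LL n - 1) =
        (1 / 2 : ℝ) ^ (KK n - 1) / 2 := by
      rw [one_div_pow, one_div_pow]
      have h3 : KK n - 1 = (KK n - LL n) + (LL n - 1) := by omega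
      rw [h3, pow_add]
      field_simp
    have h2' : (1 / (2 : ℝ) ^ (KK n - LL n)) * (1 / 2) ^ (LL n - 1) =
        (1 / 2 : ℝ) ^ (KK n - 1) := by
      rw [one_div_pow, one_div_pow]
      have h3 : KK n - 1 = (KK n - LL n) + (LL n - 1) := by omega
      rw [h3, pow_add]
      field_simp
    have h4 := mul_le_mul_of_nonneg_right h1.1 (show (0 : ℝ) ≤ (1 / 2) ^ (LL n - 1) by positivity)
    have h5 := mul_le_mul_of_nonneg_right h1.2 (show (0 : ℝ) ≤ (1 / 2) ^ (LL n - 1) by positivity)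
    rw [h2] at h4
    rw [h2'] at h5
    have h6 : (Nat.centralBinom (mn n) : ℝ) / 4 ^ mn n =
      (Nat.centralBinom ((2 ^ (KK n - LL n)) ^ 2) : ℝ) / 4 ^ ((2 ^ (KK n - LL n)) ^ 2) := rfl
    rw [h6]
    generalize (Nat.centralBinom ((2 ^ (KK n - LL n)) ^ 2) : ℝ) / 4 ^ ((2 ^ (KK n - LL n)) ^ 2) *
      (1 / 2) ^ (LL n - 1) = c at *
    generalize (1 - (1 / 2 : ℝ) ^ KK n) ^ 2 ^ KK n = g at *
    generalize (1 / 2 : ℝ) ^ (KK n - 1) = q at *
    constructor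
    · nlinarith
    · nlinarith

theorem KK_tendsto : Tendsto KK atTop atTop := by
  refine tendsto_atTop_mono (fun n => ?_) tendsto_id
  change n ≤ (n + 1) ^ 2
  nlinarith

theorem LL_tendsto : Tendsto LL atTop atTop := tendsto_add_atTop_nat 1

theorem card_Vn (n : ℕ) : Fintype.card (Vn n) = 2 ^ KK n * KK n + LL n * (2 * mn n + 1) := by
  simp [Vn, VV]

theorem noise (ε : ℝ) (hε0 : 0 < ε) (hε1 : ε < 1) :
    Tendsto (fun n => noiseCov (1 / 2) ε (fn n)) atTop (𝓝 0) := by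
  have h1 : ∀ n, noiseCov (1 / 2) ε (fn n) =
      4 * DD (1 / 2) (1 - ε) (FF (2 ^ KK n) (KK n) (LL n) (mn n)) := by
    intro n
    rw [noiseCov_eq]
    exact DD_val _ _ _ _ _
  have hub : Tendsto (fun n => 4 * (((1 + (1 - ε)) / 2) ^ KK n + (1 / 2 : ℝ) ^ LL n)) atTop
      (𝓝 (4 * (0 + 0))) := by
    refine ((Tendsto.comp ?_ KK_tendsto).add (Tendsto.comp ?_ LL_tendsto)).const_mul 4
    · exact tendsto_pow_atTop_nhds_zero_of_lt_one (by linarith) (by linarith)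
    · exact tendsto_pow_atTop_nhds_zero_of_lt_one (by norm_num) (by norm_num)
  rw [add_zero, mul_zero] at hub
  refine tendsto_of_tendsto_of_tendsto_of_le_of_le tendsto_const_nhds hub (fun n => ?_) fun n => ?_
  · change 0 ≤ noiseCov (1 / 2) ε (fn n)
    rw [h1]
    exact mul_nonneg (by norm_num) (DD_nonneg (by norm_num) (by norm_num) (by linarith)
      (by linarith) _)
  · change noiseCov (1 / 2) ε (fn n) ≤ _
    rw [h1]
    have := DD_upper (KK n) (LL n) (mn n) (δ := 1 - ε) (by linarith) (by linarith) (KK_pos n)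
      (LL_pos n)
    linarith

theorem vari_lower (n : ℕ) : 1 / 4 ≤ vari (1 / 2) (fun ω => val (fn n ω)) := by
  have h := ex_bounds (KK n) (LL n) (mn n) (KK_pos n) (LL_pos n)
  have h1 := vari_val (KK n) (LL n) (mn n) (2 ^ KK n)
  rw [vari_FF] at h1
  change vari (1 / 2) (fun ω => val (fn n ω)) = _ at h1
  rw [h1]
  nlinarith [h.1, h.2]

/-- the averaged clue -/
theorem clue_avg (n : ℕ) {δ : ℝ} (hδ0 : 0 ≤ δ) (hδ1 : δ ≤ 1) :
    ((1 + δ) ^ KK n - 1) / 2 ^ KK n / 64 ≤ exSub δ (clue (1 / 2) (fn n)) := by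
  rw [exSub_clue]
  have h1 : DD (1 / 2) δ (fun ω => val (fn n ω)) =
      4 * DD (1 / 2) δ (FF (2 ^ KK n) (KK n) (LL n) (mn n)) := DD_val _ _ _ _ _
  have h2 : vari (1 / 2) (fun ω => val (fn n ω)) =
      4 * vari (1 / 2) (FF (2 ^ KK n) (KK n) (LL n) (mn n)) := vari_val _ _ _ _
  have h3 := vari_lower n
  have h4 := DD_lower (KK n) (LL n) (mn n) hδ0 hδ1 (KK_pos n) (LL_pos n)
  have h5 := ex_bounds (KK n) (LL n) (mn n) (KK_pos n) (LL_pos n)
  have h6 := DD_nonneg (p := 1 / 2) (by norm_num) (by norm_num) hδ0 hδ1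
    (FF (2 ^ KK n) (KK n) (LL n) (mn n))
  rw [h1, h2]
  rw [h2] at h3
  have h7 : vari (1 / 2) (FF (2 ^ KK n) (KK n) (LL n) (mn n)) ≤ 1 := by
    rw [vari_FF]
    nlinarith [h5.1, h5.2]
  rw [mul_div_mul_left _ _ (by norm_num)]
  refine h4.trans ?_
  rw [le_div_iff₀ (by linarith)]
  nlinarith

theorem clue_empty {V : Type*} [Fintype V] [DecidableEq V] (p : ℝ) (f : (V → Bool) → Bool) :
    clue p f ∅ = 0 := by
  unfold clue
  have h1 : (condEx p ∅ fun ω => val (f ω)) = fun _ => ex p fun ω => val (f ω) := by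
    funext ω
    unfold condEx mix
    simp
  rw [h1]
  unfold vari
  simp only [ex_const, sub_self]
  norm_num

theorem cp_pos {V : Type*} [Fintype V] [DecidableEq V] [Nonempty V] (p : ℝ)
    (f : (V → Bool) → Bool) {s : ℝ} (hs : 0 < s) (hne : ∃ U : Finset V, s ≤ clue p f U) :
    0 < cp p f s := by
  have hV : (0 : ℝ) < Fintype.card V := by exact_mod_cast Fintype.card_pos
  have h1 : 1 / (Fintype.card V : ℝ) ≤ cp p f s := by
    unfold cp
    refine le_csInf ?_ ?_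
    · obtain ⟨U, hU⟩ := hne
      exact ⟨_, U, le_rfl, hU⟩
    · rintro u ⟨U, hU1, hU2⟩
      have hUne : U.Nonempty := by
        by_contra hcon
        rw [not_nonempty_iff_eq_empty] at hcon
        rw [hcon, clue_empty] at hU2
        linarith
      have hc : (1 : ℝ) ≤ #U := by exact_mod_cast card_pos.2 hUne
      exact (div_le_div_of_nonneg_right hc hV.le).trans hU1
  exact lt_of_lt_of_le (by positivity) h1

theorem cp_le {V : Type*} [Fintype V] [DecidableEq V] (p : ℝ)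
    (f : (V → Bool) → Bool) {s : ℝ} (U : Finset V) (hU : s ≤ clue p f U) :
    cp p f s ≤ (#U : ℝ) / Fintype.card V := by
  unfold cp
  refine csInf_le ?_ ⟨U, le_rfl, hU⟩
  refine ⟨0, ?_⟩
  rintro u ⟨W, hW, -⟩
  exact le_trans (by positivity) hW

theorem clue_univ {V : Type*} [Fintype V] [DecidableEq V] (p : ℝ) (f : (V → Bool) → Bool)
    (h : vari p (fun ω => val (f ω)) ≠ 0) : clue p f univ = 1 := by
  unfold clue
  have h1 : (condEx p univ fun ω => val (f ω)) = fun ω => val (f ω) := by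
    funext ω
    unfold condEx mix
    simp only [mem_univ, if_true]
    exact ex_const _ _
  rw [h1, div_self h]

instance (n : ℕ) : Nonempty (Vn n) :=
  ⟨Sum.inr (⟨0, LL_pos n⟩, ⟨0, Nat.succ_pos _⟩)⟩

theorem fn_cp_pos (n : ℕ) {δ : ℝ} (hδ0 : 0 < δ) (hδ1 : δ ≤ 1) : 0 < cp (1 / 2) (fn n) δ := by
  refine cp_pos _ _ hδ0 ⟨univ, ?_⟩
  have h := vari_lower n
  rw [clue_univ _ _ (by linarith)]
  exact hδ1

theorem fn_cp_le (n : ℕ) {δ : ℝ} (h : δ ≤ 1 - 2 * (1 / 2 : ℝ) ^ LL n) :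
    cp (1 / 2) (fn n) δ ≤ (LL n : ℝ) * 4 ^ LL n / (2 * 2 ^ KK n) := by
  have h1 := cp_le (1 / 2) (fn n) (univ.image Sum.inl : Finset (Vn n))
    (h.trans (clue_tribes (KK n) (LL n) (mn n) (KK_pos n) (LL_pos n)))
  refine h1.trans ?_
  have h2 : #(univ.image Sum.inl : Finset (Vn n)) = 2 ^ KK n * KK n := by
    rw [card_image_of_injective _ Sum.inl_injective, card_univ]
    simp
  rw [h2, card_Vn]
  have hL : (1 : ℝ) ≤ LL n := by exact_mod_cast LL_pos n
  have hmn : ((mn n : ℕ) : ℝ) * 4 ^ LL n = 4 ^ KK n := by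
    unfold mn
    push_cast
    rw [← pow_mul, mul_comm (KK n - LL n) 2, pow_mul]
    have h22 : (2 : ℝ) ^ 2 = 4 := by norm_num
    rw [h22, ← pow_add, Nat.sub_add_cancel (LL_le_KK n)]
  have hm0 : (0 : ℝ) < mn n := by
    unfold mn
    positivity
  have hKL : ((KK n : ℕ) : ℝ) = (LL n : ℝ) ^ 2 := by
    unfold KK LL
    push_cast
    ring
  push_cast
  calc (2 : ℝ) ^ KK n * KK n / (2 ^ KK n * KK n + LL n * (2 * mn n + 1))
      ≤ (2 : ℝ) ^ KK n * KK n / (2 * LL n * mn n) := by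
        apply div_le_div_of_nonneg_left (by positivity) (by positivity)
        have : (0 : ℝ) ≤ 2 ^ KK n * KK n := by positivity
        nlinarith
    _ = (LL n : ℝ) * 4 ^ LL n / (2 * 2 ^ KK n) := by
        rw [hKL, div_eq_div_iff (by positivity) (by positivity)]
        have h4 : (2 : ℝ) ^ KK n * 2 ^ KK n = mn n * 4 ^ LL n := by
          rw [hmn, ← mul_pow]
          norm_num
        calc (2 : ℝ) ^ KK n * (LL n : ℝ) ^ 2 * (2 * 2 ^ KK n) =
            (LL n : ℝ) ^ 2 * 2 * (2 ^ KK n * 2 ^ KK n) := by ring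
          _ = (LL n : ℝ) ^ 2 * 2 * (mn n * 4 ^ LL n) := by rw [h4]
          _ = (LL n : ℝ) * 4 ^ LL n * (2 * LL n * mn n) := by ring

theorem ratio {δ : ℝ} (hδ0 : 0 < δ) (hδ1 : δ < 1) :
    Tendsto (fun n => exSub δ (clue (1 / 2) (fn n)) / cp (1 / 2) (fn n) δ) atTop atTop := by
  have h1 : ∀ᶠ n in atTop, (16 : ℝ) ≤ (1 + δ) ^ LL n :=
    ((tendsto_pow_atTop_atTop_of_one_lt (by linarith : 1 < 1 + δ)).comp
      LL_tendsto).eventually_ge_atTop 16
  have h2 : ∀ᶠ n in atTop, (1 / 2 : ℝ) ^ LL n < (1 - δ) / 2 :=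
    ((tendsto_pow_atTop_nhds_zero_of_lt_one (by norm_num) (by norm_num :
      (1 / 2 : ℝ) < 1)).comp LL_tendsto).eventually (gt_mem_nhds (by linarith))
  have h3 : Tendsto (fun n => (LL n : ℝ) / 64) atTop atTop :=
    (tendsto_natCast_atTop_atTop.comp LL_tendsto).atTop_div_const (by norm_num)
  refine tendsto_atTop_mono' _ ?_ h3
  filter_upwards [h1, h2] with n hn1 hn2
  have hL : (1 : ℝ) ≤ LL n := by exact_mod_cast LL_pos n
  have hcp := fn_cp_pos n hδ0 hδ1.le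
  have hcple := fn_cp_le n (δ := δ) (by linarith)
  have hav := clue_avg n hδ0.le hδ1.le
  rw [le_div_iff₀ hcp]
  refine le_trans ?_ hav
  have h4 : (16 : ℝ) ^ LL n ≤ (1 + δ) ^ KK n := by
    have h5 : KK n = LL n * LL n := by
      unfold KK LL
      ring
    rw [h5, pow_mul]
    exact pow_le_pow_left₀ (by norm_num) hn1 _
  have h6 : (LL n : ℝ) ≤ 2 ^ LL n := by
    exact_mod_cast (Nat.lt_two_pow_self).le
  have h7 : (16 : ℝ) ^ LL n = 4 ^ LL n * (2 ^ LL n * 2 ^ LL n) := by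
    rw [← mul_pow, ← mul_pow]
    norm_num
  have h8 : (LL n : ℝ) * LL n ≤ 2 ^ LL n * 2 ^ LL n := mul_le_mul h6 h6 (by positivity) (by positivity)
  have h9 : (1 : ℝ) ≤ 4 ^ LL n := one_le_pow₀ (by norm_num)
  have h10 : (LL n : ℝ) * LL n * 4 ^ LL n / 2 ≤ (1 + δ) ^ KK n - 1 := by
    have h11 : (LL n : ℝ) * LL n * 4 ^ LL n ≤ 16 ^ LL n := by
      rw [h7, mul_comm]
      exact mul_le_mul_of_nonneg_left h8 (by positivity)
    have h12 : (16 : ℝ) ≤ 16 ^ LL n := by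
      calc (16 : ℝ) = 16 ^ 1 := by norm_num
        _ ≤ 16 ^ LL n := pow_le_pow_right₀ (by norm_num) (LL_pos n)
    linarith
  calc (LL n : ℝ) / 64 * cp (1 / 2) (fn n) δ ≤
      (LL n : ℝ) / 64 * ((LL n : ℝ) * 4 ^ LL n / (2 * 2 ^ KK n)) :=
        mul_le_mul_of_nonneg_left hcple (by positivity)
    _ = ((LL n : ℝ) * LL n * 4 ^ LL n / 2) / 2 ^ KK n / 64 := by
        field_simp
    _ ≤ ((1 + δ) ^ KK n - 1) / 2 ^ KK n / 64 := by gcongr

theorem card_tendsto : Tendsto (fun n => Fintype.card (Vn n)) atTop atTop := by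
  refine tendsto_atTop_mono (fun n => ?_) LL_tendsto
  rw [card_Vn]
  have : LL n * 1 ≤ LL n * (2 * mn n + 1) := Nat.mul_le_mul_left _ (by omega)
  omega

end Q292.Clue
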